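import Pool.Agent.Q74.BT.Stm7

/-!
# Project BT, part 7, job LowP: combinatorics and second moments
-/

set_option autoImplicit false

namespace Pool.Agent.Q96.BT

open Finset
open Pool.Agent.Q74.KP (EE EE_mono EE_add EE_sub EE_mul EE_const EE_sum EE_nonneg EE_abs)

/-! ### sets of levels -/

theorem img_shift {α : Type*} [DecidableEq α] (f : ℕ → α) (a c K : ℕ) :
    (Icc a c).image (fun m => f (m + K)) = (Icc (a + K) (c + K)).image f := by
  rw [← Finset.image_add_right_Icc a c K, image_image]
  rfl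

theorem sum_shift' {M : Type*} [AddCommMonoid M] (g : ℕ → M) (a c K : ℕ) :
    ∑ m ∈ Icc a c, g (m + K) = ∑ m ∈ Icc (a + K) (c + K), g m := by
  rw [← Finset.image_add_right_Icc a c K, sum_image]
  intro x _ y _ h
  exact Nat.add_right_cancel h

/-- the number of coincidences at distance at least `K` of the members of the block `b` -/
def cf {α : Type*} [DecidableEq α] (K N : ℕ) (f : ℕ → α) (a : ℕ) : ℕ :=
  ∑ m ∈ Icc a (a + K), ∑ m' ∈ Icc (m + K) N, if f m = f m' then 1 else 0

theorem cf_shift {α : Type*} [DecidableEq α] (K N : ℕ) (f : ℕ → α) (a : ℕ) :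
    cf K N (fun m => f (m + K)) a = cf K (N + K) f (a + K) := by
  unfold cf
  rw [show a + K + K = (a + K) + K by ring, ← sum_shift' _ a (a + K) K]
  refine sum_congr rfl fun m _ => ?_
  rw [← sum_shift' _ (m + K) N K]

theorem first_block {α : Type*} [DecidableEq α] (K N : ℕ) (f : ℕ → α) (hN : 2 * K ≤ N) :
    ((Icc 0 (2 * K)).image f).card + ((Icc K N).image f).card ≤
      ((Icc 0 N).image f).card + ((Icc K (2 * K)).image f).card + cf K N f 0 := by
  set A := (Icc 0 (2 * K)).image f
  set U := (Icc K N).image f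
  set W := (((Icc 0 K) ×ˢ (Icc (2 * K) N)).filter (fun p : ℕ × ℕ => f p.1 = f p.2)).image
    (fun p : ℕ × ℕ => f p.1) with hW
  have h1 : A ∪ U = (Icc 0 N).image f := by
    rw [← image_union]
    congr 1
    ext i
    simp only [mem_union, mem_Icc]
    omega
  have h2 : A ∩ U ⊆ (Icc K (2 * K)).image f ∪ W := by
    intro y hy
    rw [mem_inter] at hy
    obtain ⟨hA, hU⟩ := hy
    obtain ⟨m, hm, hm2⟩ := mem_image.1 hA
    obtain ⟨m', hm', hm'2⟩ := mem_image.1 hU
    rw [mem_Icc] at hm hm'
    rw [mem_union]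
    by_cases hK : K ≤ m
    · left
      exact mem_image.2 ⟨m, mem_Icc.2 ⟨hK, hm.2⟩, hm2⟩
    · by_cases hK' : m' ≤ 2 * K
      · left
        exact mem_image.2 ⟨m', mem_Icc.2 ⟨hm'.1, hK'⟩, hm'2⟩
      · right
        rw [hW, mem_image]
        refine ⟨(m, m'), mem_filter.2 ⟨mem_product.2 ⟨mem_Icc.2 ⟨Nat.zero_le _, by omega⟩,
          mem_Icc.2 ⟨by omega, hm'.2⟩⟩, ?_⟩, hm2⟩
        show f m = f m'
        rw [hm2, hm'2]
  have h3 : W.card ≤ cf K N f 0 := by
    refine card_image_le.trans ?_
    rw [card_filter, sum_product]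
    unfold cf
    rw [zero_add]
    refine sum_le_sum fun m hm => ?_
    refine sum_le_sum_of_subset_of_nonneg ?_ fun _ _ _ => Nat.zero_le _
    intro i hi
    rw [mem_Icc] at hi hm ⊢
    omega
  have h4 := card_union_add_card_inter A U
  have h5 : (A ∩ U).card ≤ ((Icc K (2 * K)).image f).card + W.card :=
    (card_le_card h2).trans (card_union_le _ _)
  rw [h1] at h4
  omega

/-- lower bound for the number of places -/
theorem union_low {α : Type*} [DecidableEq α] (K B : ℕ) : ∀ f : ℕ → α,
    ∑ b ∈ range B, ((Icc (b * K) (b * K + 2 * K)).image f).card ≤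
      ((Icc 0 (B * K + K)).image f).card +
        ∑ b ∈ range B, ((Icc (b * K + K) (b * K + 2 * K)).image f).card +
        ∑ b ∈ range B, cf K (B * K + K) f (b * K) := by
  induction B with
  | zero => intro f; simp
  | succ B ih =>
    intro f
    rw [sum_range_succ', sum_range_succ', sum_range_succ']
    have e1 : ∀ b : ℕ, ((Icc ((b + 1) * K) ((b + 1) * K + 2 * K)).image f).card =
        ((Icc (b * K) (b * K + 2 * K)).image (fun m => f (m + K))).card := by
      intro b
      rw [img_shift]
      congr 3 <;> ring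
    have e2 : ∀ b : ℕ, ((Icc ((b + 1) * K + K) ((b + 1) * K + 2 * K)).image f).card =
        ((Icc (b * K + K) (b * K + 2 * K)).image (fun m => f (m + K))).card := by
      intro b
      rw [img_shift]
      congr 3 <;> ring
    have e3 : ∀ b : ℕ, cf K ((B + 1) * K + K) f ((b + 1) * K) =
        cf K (B * K + K) (fun m => f (m + K)) (b * K) := by
      intro b
      rw [cf_shift]
      congr 1 <;> ring
    simp only [e1, e2, e3]
    have h1 := ih (fun m => f (m + K))
    have h2 := first_block K ((B + 1) * K + K) f (by nlinarith [Nat.zero_le (B * K)])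
    have e4 : ((Icc 0 (B * K + K)).image (fun m => f (m + K))).card =
        ((Icc K ((B + 1) * K + K)).image f).card := by
      rw [img_shift]
      congr 3 <;> ring
    rw [e4] at h1
    simp only [zero_mul, zero_add]
    omega

/-- images of `Fin` -/
theorem img_fin {α : Type*} [DecidableEq α] (f : ℕ → α) (a K : ℕ) :
    (univ : Finset (Fin (K + 1))).image (fun i : Fin (K + 1) => f (a + i)) = (Icc a (a + K)).image f := by
  ext y
  simp only [mem_image, mem_univ, true_and, mem_Icc]
  constructor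
  · rintro ⟨i, rfl⟩
    exact ⟨a + i, ⟨by omega, by have := i.2; omega⟩, rfl⟩
  · rintro ⟨m, ⟨h1, h2⟩, rfl⟩
    refine ⟨⟨m - a, by omega⟩, ?_⟩
    congr 1
    show a + (m - a) = m
    omega

/-- the number of values is a function of the pattern -/
theorem card_pat {ι : Type*} (s : Finset ι) (v w : ι → ℤ) (h : ∀ i i', v i = v i' ↔ w i = w i') :
    (s.image v).card = (s.image w).card := by
  classical
  have key : ∀ v w : ι → ℤ, (∀ i i', v i = v i' → w i = w i') → (s.image w).card ≤ (s.image v).card := by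
    intro v w h
    have h1 : s.image w ⊆ (s.image v).image (fun y => if H : ∃ i, v i = y then w H.choose else 0) := by
      intro y hy
      obtain ⟨i, hi, rfl⟩ := mem_image.1 hy
      refine mem_image.2 ⟨v i, mem_image_of_mem _ hi, ?_⟩
      have H : ∃ i', v i' = v i := ⟨i, rfl⟩
      show (if H : ∃ i', v i' = v i then w H.choose else 0) = w i
      rw [dif_pos H]
      exact h _ _ H.choose_spec
    exact (card_le_card h1).trans card_image_le
  exact le_antisymm (key w v fun i i' => (h i i').2) (key v w fun i i' => (h i i').1)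

/-! ### averages -/

theorem EE_sq (t : ℕ) (Y : ℤ → ℝ) : EE t (fun x => |Y x|) ≤ √(EE t (fun x => Y x ^ 2)) := by
  set c := EE t (fun x => |Y x|) with hc
  have hc0 : 0 ≤ c := EE_nonneg t fun x => abs_nonneg _
  apply Real.le_sqrt_of_sq_le
  have h1 : 0 ≤ EE t (fun x => (|Y x| - c) ^ 2) := EE_nonneg t fun x => sq_nonneg _
  have h2 : (fun x : ℤ => (|Y x| - c) ^ 2) = fun x => (Y x ^ 2 - (2 * c) * |Y x|) + c ^ 2 := by
    funext x
    rw [sub_sq, sq_abs]
    ring
  rw [h2, EE_add, EE_sub, EE_mul, EE_const, ← hc] at h1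
  nlinarith

theorem EE_markov (t : ℕ) {Y : ℤ → ℝ} (hY : ∀ x, 0 ≤ Y x) {c : ℝ} (hc : 0 < c) :
    EE t (fun x => Set.indicator {x : ℤ | c < Y x} 1 x) ≤ EE t Y / c := by
  have h1 : EE t (fun x => Set.indicator {x : ℤ | c < Y x} 1 x) ≤ EE t (fun x => (1 / c) * Y x) := by
    apply EE_mono
    intro x
    by_cases h : c < Y x
    · rw [Set.indicator_of_mem (by exact h)]
      show (1 : ℝ) ≤ 1 / c * Y x
      rw [one_div, ← div_eq_inv_mul, le_div_iff₀ hc]
      linarith
    · rw [Set.indicator_of_notMem (by exact h)]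
      have := hY x
      positivity
  rw [EE_mul] at h1
  calc _ ≤ _ := h1
    _ = EE t Y / c := by ring

/-- second moment of a sum with short range dependence -/
theorem var_sum (t : ℕ) (X : ℕ → ℤ → ℝ) (n q : ℕ) {M e : ℝ} (hM : 0 ≤ M) (he : 0 ≤ e)
    (h1 : ∀ b < n, ∀ x, |X b x| ≤ M)
    (h2 : ∀ b b', b < n → b' < n → b + q ≤ b' → |EE t (fun x => X b x * X b' x)| ≤ e) :
    EE t (fun x => (∑ b ∈ range n, X b x) ^ 2) ≤ 2 * q * n * M ^ 2 + n ^ 2 * e := by
  classical
  have e1 : (fun x : ℤ => (∑ b ∈ range n, X b x) ^ 2) =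
      fun x => ∑ b ∈ range n, ∑ b' ∈ range n, X b x * X b' x := by
    funext x
    rw [sq, sum_mul_sum]
  rw [e1, EE_sum]
  have e2 : ∀ b, EE t (fun x => ∑ b' ∈ range n, X b x * X b' x) =
      ∑ b' ∈ range n, EE t (fun x => X b x * X b' x) := fun b => EE_sum _ _ _
  simp only [e2]
  have hb : ∀ b ∈ range n, ∀ b' ∈ range n, EE t (fun x => X b x * X b' x) ≤
      (if (b' : ℤ) ∈ Ioo (b - q : ℤ) (b + q) then M ^ 2 else 0) + e := by
    intro b hb b' hb'
    rw [mem_range] at hb hb'
    by_cases h : (b' : ℤ) ∈ Ioo (b - q : ℤ) (b + q)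
    · rw [if_pos h]
      have h3 : EE t (fun x => X b x * X b' x) ≤ EE t (fun _ => M ^ 2) := by
        apply EE_mono
        intro x
        calc X b x * X b' x ≤ |X b x * X b' x| := le_abs_self _
          _ = |X b x| * |X b' x| := abs_mul _ _
          _ ≤ M * M := mul_le_mul (h1 b hb x) (h1 b' hb' x) (abs_nonneg _) hM
          _ = M ^ 2 := by ring
      rw [EE_const] at h3
      linarith
    · rw [if_neg h, zero_add]
      rw [mem_Ioo] at h
      rcases le_total b b' with hle | hle
      · exact (le_abs_self _).trans (h2 b b' hb hb' (by omega))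
      · have h4 := h2 b' b hb' hb (by omega)
        have e3 : (fun x : ℤ => X b x * X b' x) = fun x => X b' x * X b x := by
          funext x; ring
        rw [e3]
        exact (le_abs_self _).trans h4
  refine (sum_le_sum fun b hb' => sum_le_sum fun b' hb'' => hb b hb' b' hb'').trans ?_
  have hc : ∀ b ∈ range n, ∑ b' ∈ range n, ((if (b' : ℤ) ∈ Ioo (b - q : ℤ) (b + q) then M ^ 2 else 0) + e) ≤
      2 * q * M ^ 2 + n * e := by
    intro b _
    rw [sum_add_distrib, sum_const, card_range, nsmul_eq_mul, ← sum_filter, sum_const, nsmul_eq_mul]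
    have h5 : (((range n).filter (fun b' : ℕ => (b' : ℤ) ∈ Ioo (b - q : ℤ) (b + q))).card : ℝ) ≤ 2 * q := by
      have h6 : ((range n).filter (fun b' : ℕ => (b' : ℤ) ∈ Ioo (b - q : ℤ) (b + q))).card ≤
          (Ioo (b - q : ℤ) (b + q)).card := by
        apply card_le_card_of_injOn (fun b' : ℕ => (b' : ℤ))
        · intro b' hb'
          rw [mem_coe, mem_filter] at hb'
          exact hb'.2
        · intro x _ y _ hxy
          have hxy' : (x : ℤ) = y := hxy
          exact_mod_cast hxy'
      rw [Int.card_Ioo] at h6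
      have h7 : ((range n).filter (fun b' : ℕ => (b' : ℤ) ∈ Ioo (b - q : ℤ) (b + q))).card ≤ 2 * q := by
        omega
      exact_mod_cast h7
    have := mul_le_mul_of_nonneg_right h5 (sq_nonneg M)
    linarith
  refine (sum_le_sum hc).trans (le_of_eq ?_)
  rw [sum_const, card_range, nsmul_eq_mul]
  ring

/-- the mean deviation, by chunks -/
theorem l1_chunk (t : ℕ) (X : ℕ → ℤ → ℝ) (n q Q : ℕ) {M e : ℝ} (hM : 0 ≤ M) (he : 0 ≤ e)
    (h1 : ∀ b < n * Q, ∀ x, |X b x| ≤ M)
    (h2 : ∀ b b', b < n * Q → b' < n * Q → b + q ≤ b' → b' ≤ b + n →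
      |EE t (fun x => X b x * X b' x)| ≤ e) :
    EE t (fun x => |∑ b ∈ range (n * Q), X b x|) ≤ Q * √(2 * q * n * M ^ 2 + n ^ 2 * e) := by
  induction Q with
  | zero => simp [EE_const]
  | succ Q ih =>
    have e1 : ∀ x, ∑ b ∈ range (n * (Q + 1)), X b x =
        ∑ b ∈ range (n * Q), X b x + ∑ b ∈ range n, X (n * Q + b) x := by
      intro x
      rw [Nat.mul_succ, sum_range_add]
    have hlt : n * Q ≤ n * (Q + 1) := Nat.mul_le_mul_left _ (Nat.le_succ _)
    have h3 := ih (fun b hb => h1 b (hb.trans_le hlt)) (fun b b' hb hb' => h2 b b' (hb.trans_le hlt)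
      (hb'.trans_le hlt))
    have h4 : EE t (fun x => |∑ b ∈ range n, X (n * Q + b) x|) ≤
        √(2 * q * n * M ^ 2 + n ^ 2 * e) := by
      refine (EE_sq t _).trans (Real.sqrt_le_sqrt ?_)
      apply var_sum t (fun b x => X (n * Q + b) x) n q hM he
      · intro b hb x
        exact h1 _ (by rw [Nat.mul_succ]; omega) x
      · intro b b' hb hb' hbb
        exact h2 _ _ (by rw [Nat.mul_succ]; omega) (by rw [Nat.mul_succ]; omega) (by omega) (by omega)
    have h5 : EE t (fun x => |∑ b ∈ range (n * (Q + 1)), X b x|) ≤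
        EE t (fun x => |∑ b ∈ range (n * Q), X b x| + |∑ b ∈ range n, X (n * Q + b) x|) := by
      apply EE_mono
      intro x
      rw [e1 x]
      exact abs_add_le _ _
    rw [EE_add] at h5
    push_cast
    linarith

end Pool.Agent.Q96.BT
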