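import Pool.Agent.Q96.BT.LP1
import Pool.Agent.Q38.BT.Bot
import Pool.Agent.Q14.BT.NetA

/-!
# Project BT, part 7, job LowP: the nets and the probabilistic lemma
-/

set_option autoImplicit false

namespace Pool.Agent.Q96.BT

open Finset
open Pool.Agent.Q158.Pair (T)
open Pool.Agent.Q74.AR (oc oc_le oc_per)
open Pool.Agent.Q74.KP (EE Erf EE_mono EE_add EE_sub EE_mul EE_const EE_sum EE_nonneg EE_abs)
open Pool.Agent.Q38.BT (wv wv_step)
open Pool.Agent.Q14.BT (Erf_low)
open Pool.Agent.Q74.BT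

/-! ### the offsets -/

theorem wv_fwd (x y : ℤ) (k : ℕ) {W : ℝ} (hW : |wv x y k| ≤ W) (i : ℕ) :
    |wv x y (k + i)| * 3 ^ oc k y ≤ 3 ^ oc (k + i) y * (W + 1) := by
  have hW0 : 0 ≤ W := (abs_nonneg _).trans hW
  induction i with
  | zero =>
    rw [add_zero]
    have : (0 : ℝ) < 3 ^ oc k y := by positivity
    nlinarith
  | succ i ih =>
    have h3 : (1 : ℝ) ≤ 3 ^ oc k y := one_le_pow₀ (by norm_num)
    have h4 : (1 : ℝ) ≤ 3 ^ oc (k + i) y := one_le_pow₀ (by norm_num)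
    rw [← add_assoc]
    rcases wv_step x y (k + i) with ⟨h1, h2⟩ | ⟨h1, h2⟩
    · rw [h1, h2, abs_div, abs_of_pos (by norm_num : (0 : ℝ) < 2)]
      have : 0 ≤ (3 : ℝ) ^ oc (k + i) y * (W + 1) := by positivity
      linarith
    · rw [h1, h2, abs_div, abs_of_pos (by norm_num : (0 : ℝ) < 2), pow_succ]
      have h5 : |3 * wv x y (k + i) + 1| ≤ 3 * |wv x y (k + i)| + 1 := by
        refine (abs_add_le _ _).trans ?_
        rw [abs_mul, abs_of_pos (by norm_num : (0 : ℝ) < 3), abs_one]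
      have h6 : |3 * wv x y (k + i) + 1| * 3 ^ oc k y ≤ (3 * |wv x y (k + i)| + 1) * 3 ^ oc k y :=
        mul_le_mul_of_nonneg_right h5 (by positivity)
      have h7 : (3 : ℝ) ^ oc k y ≤ 3 ^ oc (k + i) y := by
        apply pow_le_pow_right₀ (by norm_num)
        rw [Pool.Agent.Q74.KP.oc_add]
        exact Nat.le_add_right _ _
      have h8 : 0 ≤ (3 : ℝ) ^ oc (k + i) y * W := by positivity
      nlinarith

/-- the levels of the nets are counted -/
theorem mem_LSg {C : ℝ} (hC : 1 ≤ C) {L k t : ℕ} (hL : 1 ≤ L) {j : ℤ → ℕ} (h : LN C L k j) (hk : k ≤ t)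
    (hb : 8 * (2 * C + 1) * (C * L) ≤ 2 ^ k) (x : ℤ) : (oc t (x + j x) : ℤ) ∈ LSg L t x := by
  obtain ⟨h1, -, h3⟩ := h
  obtain ⟨h4, h5, h6⟩ := h3 x
  have hLp : (0 : ℝ) < L := by exact_mod_cast hL
  have hCp : (0 : ℝ) < C := by linarith
  have h2k : (0 : ℝ) < 2 ^ k := by positivity
  set y : ℤ := x + j x with hy
  set a := oc k y with ha
  have h7 : (3 : ℝ) ^ a * j x / 2 ^ k ≤ C := by
    rw [div_le_iff₀ h2k]
    have : (j x : ℝ) ≤ L := by exact_mod_cast (h1 x).le
    calc (3 : ℝ) ^ a * j x ≤ 3 ^ a * L := mul_le_mul_of_nonneg_left this (by positivity)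
      _ ≤ C * 2 ^ k := h5
  have h8 : |wv x y k| ≤ 2 * C := by
    have e1 : wv x y k = ((T^[k] y : ℝ) - 3 ^ a * (x + j x) / 2 ^ k) + 3 ^ a * j x / 2 ^ k := by
      unfold wv
      rw [← ha]
      ring
    rw [e1]
    have h9 : 0 ≤ (3 : ℝ) ^ a * j x / 2 ^ k := by positivity
    refine (abs_add_le _ _).trans ?_
    rw [abs_of_nonneg h9]
    linarith
  obtain ⟨i, rfl⟩ := Nat.exists_eq_add_of_le hk
  have h9 := wv_fwd x y k h8 i
  rw [← ha] at h9
  have h10 : 8 * (2 * C + 1) ≤ (3 : ℝ) ^ a := by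
    have h11 : 8 * (2 * C + 1) * (C * L) ≤ 3 ^ a * (C * L) := by linarith
    exact le_of_mul_le_mul_right h11 (by positivity)
  have h12 : |wv x y (k + i)| ≤ 3 ^ oc (k + i) y / 8 := by
    have h13 : |wv x y (k + i)| * (8 * (2 * C + 1)) ≤ |wv x y (k + i)| * 3 ^ a :=
      mul_le_mul_of_nonneg_left h10 (abs_nonneg _)
    have h14 : (8 * |wv x y (k + i)|) * (2 * C + 1) ≤ 3 ^ oc (k + i) y * (2 * C + 1) := by linarith
    have := le_of_mul_le_mul_right h14 (by positivity)
    linarith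
  unfold LSg
  rw [mem_image]
  refine ⟨j x, mem_filter.2 ⟨mem_range.2 (h1 x), ?_⟩, rfl⟩
  exact h12

/-! ### the far coincidences -/

theorem geo_far {h : ℝ} {K : ℕ} (hK : 4 ≤ K * h ^ 2) (m N : ℕ) :
    ∑ m' ∈ Icc (m + K) N, 4 * Real.exp (-((((m' : ℝ) - m) * h) ^ 2 / 8)) ≤
      8 * Real.exp (-((K * h) ^ 2 / 8)) := by
  have hterm : ∀ i : ℕ, 4 * Real.exp (-(((((m + K + i : ℕ) : ℝ) - m) * h) ^ 2 / 8)) ≤
      4 * Real.exp (-((K * h) ^ 2 / 8)) * (1 / 2) ^ i := by
    intro i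
    have h1 : -(((((m + K + i : ℕ) : ℝ) - m) * h) ^ 2 / 8) ≤ -((K * h) ^ 2 / 8) + i * -Real.log 2 := by
      have e1 : (((m + K + i : ℕ) : ℝ) - m) = K + i := by push_cast; ring
      rw [e1]
      have h2 : (i : ℝ) * 4 ≤ i * (K * h ^ 2) := mul_le_mul_of_nonneg_left hK (Nat.cast_nonneg i)
      have h3 : Real.log 2 ≤ 1 := by
        have := Real.log_two_lt_d9
        linarith
      have h4 : (i : ℝ) * Real.log 2 ≤ i * 1 := mul_le_mul_of_nonneg_left h3 (Nat.cast_nonneg i)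
      have h5 : 0 ≤ (i : ℝ) ^ 2 * h ^ 2 := by positivity
      nlinarith
    have h6 := Real.exp_le_exp.2 h1
    rw [Real.exp_add] at h6
    have h7 : Real.exp ((i : ℝ) * -Real.log 2) = (1 / 2) ^ i := by
      rw [mul_comm, ← Real.rpow_natCast, one_div, Real.rpow_def_of_pos (by norm_num),
        Real.log_inv]
    rw [h7] at h6
    linarith
  have hsub : Icc (m + K) N ⊆ (range (N + 1)).image (fun i => m + K + i) := by
    intro a ha
    rw [mem_Icc] at ha
    exact mem_image.2 ⟨a - (m + K), mem_range.2 (by omega), by omega⟩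
  calc ∑ m' ∈ Icc (m + K) N, 4 * Real.exp (-((((m' : ℝ) - m) * h) ^ 2 / 8))
      ≤ ∑ m' ∈ (range (N + 1)).image (fun i => m + K + i),
          4 * Real.exp (-((((m' : ℝ) - m) * h) ^ 2 / 8)) :=
        sum_le_sum_of_subset_of_nonneg hsub fun _ _ _ => by positivity
    _ = ∑ i ∈ range (N + 1), 4 * Real.exp (-(((((m + K + i : ℕ) : ℝ) - m) * h) ^ 2 / 8)) := by
        rw [sum_image]
        intro a _ b _ hab
        exact Nat.add_left_cancel hab
    _ ≤ ∑ i ∈ range (N + 1), 4 * Real.exp (-((K * h) ^ 2 / 8)) * (1 / 2) ^ i :=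
        sum_le_sum fun i _ => hterm i
    _ = 4 * Real.exp (-((K * h) ^ 2 / 8)) * ∑ i ∈ range (N + 1), (1 / 2 : ℝ) ^ i := by
        rw [mul_sum]
    _ ≤ 4 * Real.exp (-((K * h) ^ 2 / 8)) * 2 := by
        apply mul_le_mul_of_nonneg_left _ (by positivity)
        have := geom_sum_Ico_le_of_lt_one (x := (1 / 2 : ℝ)) (m := 0) (n := N + 1) (by norm_num)
          (by norm_num)
        rw [Finset.range_eq_Ico]
        refine this.trans (le_of_eq (by norm_num))
    _ = 8 * Real.exp (-((K * h) ^ 2 / 8)) := by ring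

/-! ### the probabilistic lemma -/

/-- new places of the block `b` -/
noncomputable def Zb (K : ℕ) (f : ℤ → ℕ → ℤ) (b : ℕ) (x : ℤ) : ℝ :=
  ((Icc (b * K) (b * K + 2 * K)).image (f x)).card - ((Icc (b * K + K) (b * K + 2 * K)).image (f x)).card

theorem Zb_nonneg (K : ℕ) (f : ℤ → ℕ → ℤ) (b : ℕ) (x : ℤ) : 0 ≤ Zb K f b x := by
  unfold Zb
  rw [sub_nonneg]
  have h : (Icc (b * K + K) (b * K + 2 * K)).image (f x) ⊆ (Icc (b * K) (b * K + 2 * K)).image (f x) :=
    image_subset_image (Icc_subset_Icc (Nat.le_add_right _ _) le_rfl)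
  exact_mod_cast card_le_card h

theorem Zb_le (K : ℕ) (f : ℤ → ℕ → ℤ) (b : ℕ) (x : ℤ) : Zb K f b x ≤ 2 * K + 1 := by
  unfold Zb
  have h : ((Icc (b * K) (b * K + 2 * K)).image (f x)).card ≤ 2 * K + 1 := by
    refine card_image_le.trans ?_
    rw [Nat.card_Icc]
    omega
  have h2 : (((Icc (b * K) (b * K + 2 * K)).image (f x)).card : ℝ) ≤ 2 * K + 1 := by exact_mod_cast h
  have h3 : (0 : ℝ) ≤ ((Icc (b * K + K) (b * K + 2 * K)).image (f x)).card := Nat.cast_nonneg _
  linarith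

open Classical in
theorem prob_low (t : ℕ) (f : ℤ → ℕ → ℤ) (K n q Q : ℕ) {h c e : ℝ} (hK : 4 ≤ K * h ^ 2) (hc : 0 < c)
    (he : 0 ≤ e) (hn : 1 ≤ n) (hQ : 1 ≤ Q)
    (hcov : ∀ b b', b < n * Q → b' < n * Q → b + q ≤ b' → b' ≤ b + n →
      |EE t (fun x => Zb K f b x * Zb K f b' x) - EE t (Zb K f b) * EE t (Zb K f b')| ≤ e)
    (hfar : ∀ m m', m + K ≤ m' → m' ≤ n * Q * K + K →
      EE t (fun x => Set.indicator {x : ℤ | f x m = f x m'} 1 x) ≤
        4 * Real.exp (-((((m' : ℝ) - m) * h) ^ 2 / 8))) :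
    EE t (fun x => Set.indicator {x : ℤ | (((Icc 0 (n * Q * K + K)).image (f x)).card : ℝ) <
      ∑ b ∈ range (n * Q), EE t (Zb K f b) - 2 * c * (n * Q)} 1 x) ≤
    √(2 * q * n * (2 * K + 1) ^ 2 + n ^ 2 * e) / (c * n) +
      (K + 1) * (8 * Real.exp (-((K * h) ^ 2 / 8))) / c := by
  set B := n * Q with hB
  have hBp : (0 : ℝ) < B := by
    have : 1 ≤ n * Q := Nat.one_le_iff_ne_zero.2 (Nat.mul_ne_zero (by omega) (by omega))
    rw [hB]
    exact_mod_cast this
  have hnp : (0 : ℝ) < n := by exact_mod_cast hn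
  have hQp : (0 : ℝ) < Q := by exact_mod_cast hQ
  have hBr : (B : ℝ) = n * Q := by rw [hB]; push_cast; ring
  rw [← hBr]
  have hcB : 0 < c * B := by positivity
  set X : ℕ → ℤ → ℝ := fun b x => Zb K f b x - EE t (Zb K f b) with hX
  have hE0 : ∀ b, 0 ≤ EE t (Zb K f b) := fun b => EE_nonneg t fun x => Zb_nonneg K f b x
  have hE1 : ∀ b, EE t (Zb K f b) ≤ 2 * K + 1 := by
    intro b
    have := EE_mono t (F := Zb K f b) (G := fun _ => 2 * (K : ℝ) + 1) fun x => Zb_le K f b x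
    rwa [EE_const] at this
  have hX1 : ∀ b < n * Q, ∀ x, |X b x| ≤ 2 * K + 1 := by
    intro b _ x
    rw [hX, abs_le]
    have a1 := Zb_nonneg K f b x
    have a2 := Zb_le K f b x
    have a3 := hE0 b
    have a4 := hE1 b
    constructor
    · show -(2 * (K : ℝ) + 1) ≤ Zb K f b x - EE t (Zb K f b)
      linarith
    · show Zb K f b x - EE t (Zb K f b) ≤ 2 * K + 1
      linarith
  have hX2 : ∀ b b', b < n * Q → b' < n * Q → b + q ≤ b' → b' ≤ b + n →
      |EE t (fun x => X b x * X b' x)| ≤ e := by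
    intro b b' h1 h2 h3 h4
    have e1 : EE t (fun x => X b x * X b' x) =
        EE t (fun x => Zb K f b x * Zb K f b' x) - EE t (Zb K f b) * EE t (Zb K f b') := by
      have e2 : (fun x => X b x * X b' x) = fun x => (Zb K f b x * Zb K f b' x -
          EE t (Zb K f b) * Zb K f b' x) - (EE t (Zb K f b') * Zb K f b x -
            EE t (Zb K f b) * EE t (Zb K f b')) := by
        funext x
        rw [hX]
        ring
      rw [e2, EE_sub, EE_sub, EE_sub, EE_mul, EE_mul, EE_const]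
      have e3 : EE t (fun x => Zb K f b' x) = EE t (Zb K f b') := rfl
      have e4 : EE t (fun x => Zb K f b x) = EE t (Zb K f b) := rfl
      rw [e3, e4]
      ring
    rw [e1]
    exact hcov b b' h1 h2 h3 h4
  have hL1 := l1_chunk t X n q Q (M := 2 * K + 1) (by positivity) he hX1 hX2
  set V := √(2 * q * n * (2 * (K : ℝ) + 1) ^ 2 + n ^ 2 * e) with hV
  -- the far coincidences
  set Fr : ℤ → ℝ := fun x => ((∑ b ∈ range B, cf K (B * K + K) (f x) (b * K) : ℕ) : ℝ) with hFr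
  have hFr0 : ∀ x, 0 ≤ Fr x := fun x => Nat.cast_nonneg _
  have hFr1 : EE t Fr ≤ B * ((K + 1) * (8 * Real.exp (-((K * h) ^ 2 / 8)))) := by
    have e1 : Fr = fun x => ∑ b ∈ range B, ∑ m ∈ Icc (b * K) (b * K + K), ∑ m' ∈ Icc (m + K) (B * K + K),
        Set.indicator {x : ℤ | f x m = f x m'} (1 : ℤ → ℝ) x := by
      funext x
      rw [hFr]
      show ((∑ b ∈ range B, cf K (B * K + K) (f x) (b * K) : ℕ) : ℝ) = _
      rw [Nat.cast_sum]
      refine sum_congr rfl fun b _ => ?_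
      unfold cf
      rw [Nat.cast_sum]
      refine sum_congr rfl fun m _ => ?_
      rw [Nat.cast_sum]
      refine sum_congr rfl fun m' _ => ?_
      by_cases hmm : f x m = f x m'
      · rw [if_pos hmm, Set.indicator_of_mem (by exact hmm)]
        simp
      · rw [if_neg hmm, Set.indicator_of_notMem (by exact hmm)]
        simp
    rw [e1, EE_sum]
    have h1 : ∀ b ∈ range B, EE t (fun x => ∑ m ∈ Icc (b * K) (b * K + K), ∑ m' ∈ Icc (m + K) (B * K + K),
        Set.indicator {x : ℤ | f x m = f x m'} (1 : ℤ → ℝ) x) ≤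
        (K + 1) * (8 * Real.exp (-((K * h) ^ 2 / 8))) := by
      intro b _
      rw [EE_sum]
      have h2 : ∀ m ∈ Icc (b * K) (b * K + K), EE t (fun x => ∑ m' ∈ Icc (m + K) (B * K + K),
          Set.indicator {x : ℤ | f x m = f x m'} (1 : ℤ → ℝ) x) ≤ 8 * Real.exp (-((K * h) ^ 2 / 8)) := by
        intro m _
        rw [EE_sum]
        refine (sum_le_sum fun m' hm' => ?_).trans (geo_far hK m (B * K + K))
        rw [mem_Icc] at hm'
        exact hfar m m' hm'.1 hm'.2
      refine (sum_le_sum h2).trans ?_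
      rw [sum_const, Nat.card_Icc, nsmul_eq_mul]
      have h3 : b * K + K + 1 - b * K = K + 1 := by omega
      rw [h3]
      push_cast
      exact le_rfl
    refine (sum_le_sum h1).trans ?_
    rw [sum_const, card_range, nsmul_eq_mul]
  have hdet : ∀ x : ℤ, Set.indicator {x : ℤ | (((Icc 0 (B * K + K)).image (f x)).card : ℝ) <
      ∑ b ∈ range B, EE t (Zb K f b) - 2 * c * B} (1 : ℤ → ℝ) x ≤
      Set.indicator {x : ℤ | c * B < |∑ b ∈ range (n * Q), X b x|} 1 x +
        Set.indicator {x : ℤ | c * B < Fr x} 1 x := by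
    intro x
    by_cases hx1 : c * B < |∑ b ∈ range (n * Q), X b x|
    · have a1 : Set.indicator {x : ℤ | c * B < |∑ b ∈ range (n * Q), X b x|} (1 : ℤ → ℝ) x = 1 :=
        Set.indicator_of_mem (by exact hx1) _
      have a2 : 0 ≤ Set.indicator {x : ℤ | c * B < Fr x} (1 : ℤ → ℝ) x :=
        Set.indicator_nonneg (fun _ _ => zero_le_one) _
      have a3 : Set.indicator {x : ℤ | (((Icc 0 (B * K + K)).image (f x)).card : ℝ) <
          ∑ b ∈ range B, EE t (Zb K f b) - 2 * c * B} (1 : ℤ → ℝ) x ≤ 1 :=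
        Set.indicator_le_self' (fun _ _ => zero_le_one) _
      linarith
    by_cases hx2 : c * B < Fr x
    · have a1 : Set.indicator {x : ℤ | c * B < Fr x} (1 : ℤ → ℝ) x = 1 :=
        Set.indicator_of_mem (by exact hx2) _
      have a2 : 0 ≤ Set.indicator {x : ℤ | c * B < |∑ b ∈ range (n * Q), X b x|} (1 : ℤ → ℝ) x :=
        Set.indicator_nonneg (fun _ _ => zero_le_one) _
      have a3 : Set.indicator {x : ℤ | (((Icc 0 (B * K + K)).image (f x)).card : ℝ) <
          ∑ b ∈ range B, EE t (Zb K f b) - 2 * c * B} (1 : ℤ → ℝ) x ≤ 1 :=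
        Set.indicator_le_self' (fun _ _ => zero_le_one) _
      linarith
    have hnot : ¬ ((((Icc 0 (B * K + K)).image (f x)).card : ℝ) <
        ∑ b ∈ range B, EE t (Zb K f b) - 2 * c * B) := by
      push Not at hx1 hx2 ⊢
      have b1 := union_low K B (f x)
      have b2 : ∑ b ∈ range B, (((Icc (b * K) (b * K + 2 * K)).image (f x)).card : ℝ) ≤
          (((Icc 0 (B * K + K)).image (f x)).card : ℝ) +
          ∑ b ∈ range B, (((Icc (b * K + K) (b * K + 2 * K)).image (f x)).card : ℝ) + Fr x := by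
        rw [hFr]
        show _ ≤ _ + _ + ((∑ b ∈ range B, cf K (B * K + K) (f x) (b * K) : ℕ) : ℝ)
        exact_mod_cast b1
      have b3 : ∑ b ∈ range B, Zb K f b x =
          ∑ b ∈ range B, (((Icc (b * K) (b * K + 2 * K)).image (f x)).card : ℝ) -
          ∑ b ∈ range B, (((Icc (b * K + K) (b * K + 2 * K)).image (f x)).card : ℝ) := by
        unfold Zb
        rw [sum_sub_distrib]
      have b4 : ∑ b ∈ range (n * Q), X b x = ∑ b ∈ range B, Zb K f b x -
          ∑ b ∈ range B, EE t (Zb K f b) := by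
        rw [hX]
        show ∑ b ∈ range (n * Q), (Zb K f b x - EE t (Zb K f b)) = _
        rw [sum_sub_distrib, ← hB]
      have b5 := (abs_le.1 hx1).1
      linarith
    rw [Set.indicator_of_notMem (by exact hnot), Set.indicator_of_notMem (by exact hx1),
      Set.indicator_of_notMem (by exact hx2)]
    norm_num
  refine (EE_mono t hdet).trans ?_
  rw [EE_add]
  have f1 := EE_markov t (Y := fun x => |∑ b ∈ range (n * Q), X b x|) (fun x => abs_nonneg _) hcB
  have f2 := EE_markov t hFr0 hcB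
  have f3 : EE t (fun x => |∑ b ∈ range (n * Q), X b x|) / (c * B) ≤ V / (c * n) := by
    rw [div_le_div_iff₀ hcB (by positivity), hBr]
    calc EE t (fun x => |∑ b ∈ range (n * Q), X b x|) * (c * n) ≤ (Q * V) * (c * n) :=
          mul_le_mul_of_nonneg_right hL1 (by positivity)
      _ = V * (c * (n * Q)) := by ring
  have f4 : EE t Fr / (c * B) ≤ (K + 1) * (8 * Real.exp (-((K * h) ^ 2 / 8))) / c := by
    rw [div_le_div_iff₀ hcB hc]
    calc EE t Fr * c ≤ (B * ((K + 1) * (8 * Real.exp (-((K * h) ^ 2 / 8))))) * c :=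
          mul_le_mul_of_nonneg_right hFr1 hc.le
      _ = (K + 1) * (8 * Real.exp (-((K * h) ^ 2 / 8))) * (c * B) := by ring
  linarith

end Pool.Agent.Q96.BT
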