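import Pool.Agent.Q96.BT.LP2

/-!
# Project BT, part 7, job LowP: means and covariances of the super-blocks
-/

set_option autoImplicit false

namespace Pool.Agent.Q96.BT

open Finset
open Pool.Agent.Q158.Pair (T)
open Pool.Agent.Q74.AR (oc oc_le oc_per)
open Pool.Agent.Q74.KP (EE Erf EE_mono EE_add EE_sub EE_mul EE_const EE_sum EE_nonneg EE_abs)
open Pool.Agent.Q14.BT (Erf_low)
open Pool.Agent.Q74.BT

/-- `κ` is positive and at most 1 -/
theorem kap_pos : 0 < kap := by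
  unfold kap
  have h3 : 0 < Real.log 3 := Real.log_pos (by norm_num)
  have h2 := Real.log_two_gt_d9
  have h4 : Real.log 3 < 2 * Real.log 2 := by
    have : 2 * Real.log 2 = Real.log 4 := by
      rw [← Real.log_rpow (by norm_num)]
      norm_num
    rw [this]
    exact Real.log_lt_log (by norm_num) (by norm_num)
  rw [sub_pos, lt_div_iff₀ h3]
  linarith

theorem kap_le : kap ≤ 1 / 2 := by
  unfold kap
  have h3 : 0 < Real.log 3 := Real.log_pos (by norm_num)
  have h4 : Real.log 2 ≤ Real.log 3 := Real.log_le_log (by norm_num) (by norm_num)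
  have : Real.log 2 / Real.log 3 ≤ 1 := by rw [div_le_one h3]; exact h4
  linarith

/-- one term of the sum -/
theorem erf_term {t a b c ε h : ℝ} {K : ℕ} (ht : 0 < t) (hε : 0 < ε) (h0 : 0 < h) (hh : h ^ 2 ≤ 3 * ε)
    (hbc : b ≤ c) (hc : c ≤ (1 - ε) * t) (hκ : kap * (b - a) ≤ K * (h * √t)) :
    4 * kap / √Real.pi * ((1 - h ^ 2 / (3 * ε)) * (√(t - a) - √(t - b))) ≤ K * Erf (h * √t / √(t - c)) := by
  have hεt : 0 < ε * t := by positivity
  have h1 : ε * t ≤ t - c := by linarith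
  have h2 : ε * t ≤ t - b := by linarith
  have hsc : 0 < √(t - c) := Real.sqrt_pos.2 (by linarith)
  have hsb : 0 < √(t - b) := Real.sqrt_pos.2 (by linarith)
  have hst : 0 < √t := Real.sqrt_pos.2 ht
  have hkap := kap_pos
  have hpi : 0 < √Real.pi := Real.sqrt_pos.2 Real.pi_pos
  set g : ℝ := h * √t / √(t - c) with hg
  have hg0 : 0 < g := by positivity
  have hg2 : g ^ 2 ≤ h ^ 2 / ε := by
    rw [hg, div_pow, mul_pow, Real.sq_sqrt ht.le, Real.sq_sqrt (by linarith)]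
    rw [div_le_div_iff₀ (by linarith) hε]
    calc h ^ 2 * t * ε = h ^ 2 * (ε * t) := by ring
      _ ≤ h ^ 2 * (t - c) := mul_le_mul_of_nonneg_left h1 (by positivity)
  have hfac : 0 ≤ 1 - h ^ 2 / (3 * ε) := by
    rw [sub_nonneg, div_le_one (by positivity)]
    exact hh
  have hlow : 2 / √Real.pi * (g * (1 - h ^ 2 / (3 * ε))) ≤ Erf g := by
    refine le_trans ?_ (Erf_low hg0.le)
    apply mul_le_mul_of_nonneg_left _ (by positivity)
    have e1 : h ^ 2 / (3 * ε) = h ^ 2 / ε / 3 := by rw [div_div]; ring_nf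
    rw [e1]
    have e2 : g * g ^ 2 ≤ g * (h ^ 2 / ε) := mul_le_mul_of_nonneg_left hg2 hg0.le
    nlinarith
  have hmono : K * (h * √t) / √(t - b) ≤ K * g := by
    have e3 : √(t - c) ≤ √(t - b) := Real.sqrt_le_sqrt (by linarith)
    have e4 : h * √t / √(t - b) ≤ g := div_le_div_of_nonneg_left (by positivity) hsc e3
    calc K * (h * √t) / √(t - b) = K * (h * √t / √(t - b)) := by ring
      _ ≤ K * g := mul_le_mul_of_nonneg_left e4 (Nat.cast_nonneg K)
  have htel : 2 * (kap * (√(t - a) - √(t - b))) ≤ K * g := by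
    rcases le_total (√(t - a)) (√(t - b)) with hle | hle
    · have : kap * (√(t - a) - √(t - b)) ≤ 0 := mul_nonpos_of_nonneg_of_nonpos hkap.le (by linarith)
      have h6 : (0 : ℝ) ≤ K * g := by positivity
      linarith
    · have hta : 0 ≤ t - a := by
        by_contra hneg
        push Not at hneg
        rw [Real.sqrt_eq_zero_of_nonpos hneg.le] at hle
        linarith
      have e5 : (√(t - a) - √(t - b)) * (√(t - a) + √(t - b)) = b - a := by
        have s1 := Real.sq_sqrt hta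
        have s2 := Real.sq_sqrt (by linarith : (0 : ℝ) ≤ t - b)
        nlinarith
      have e6 : (√(t - a) - √(t - b)) * (2 * √(t - b)) ≤ b - a := by
        rw [← e5]
        exact mul_le_mul_of_nonneg_left (by linarith) (by linarith)
      have e7 : 2 * (kap * (√(t - a) - √(t - b))) ≤ K * (h * √t) / √(t - b) := by
        rw [le_div_iff₀ hsb]
        calc 2 * (kap * (√(t - a) - √(t - b))) * √(t - b)
            = kap * ((√(t - a) - √(t - b)) * (2 * √(t - b))) := by ring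
          _ ≤ kap * (b - a) := mul_le_mul_of_nonneg_left e6 hkap.le
          _ ≤ K * (h * √t) := hκ
      linarith
  calc 4 * kap / √Real.pi * ((1 - h ^ 2 / (3 * ε)) * (√(t - a) - √(t - b)))
      = 2 / √Real.pi * (1 - h ^ 2 / (3 * ε)) * (2 * (kap * (√(t - a) - √(t - b)))) := by ring
    _ ≤ 2 / √Real.pi * (1 - h ^ 2 / (3 * ε)) * (K * g) :=
        mul_le_mul_of_nonneg_left htel (by positivity)
    _ = K * (2 / √Real.pi * (g * (1 - h ^ 2 / (3 * ε)))) := by ring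
    _ ≤ K * Erf g := mul_le_mul_of_nonneg_left hlow (Nat.cast_nonneg K)

/-- each term is at least 1 -/
theorem erf_one {t c ε h : ℝ} {K : ℕ} (ht : 0 < t) (hε : 0 < ε) (h0 : 0 < h) (hh : 2 * h ^ 2 ≤ 3 * ε)
    (hc0 : 0 ≤ c) (hc : c ≤ (1 - ε) * t) (hK : 2 ≤ K * h) : 1 ≤ K * Erf (h * √t / √(t - c)) := by
  have hεt : 0 < ε * t := by positivity
  have h1 : ε * t ≤ t - c := by linarith
  have hsc : 0 < √(t - c) := Real.sqrt_pos.2 (by linarith)
  have hst : 0 < √t := Real.sqrt_pos.2 ht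
  set g : ℝ := h * √t / √(t - c) with hg
  have hg0 : 0 < g := by positivity
  have hg2 : g ^ 2 ≤ 3 / 2 := by
    rw [hg, div_pow, mul_pow, Real.sq_sqrt ht.le, Real.sq_sqrt (by linarith)]
    rw [div_le_iff₀ (by linarith)]
    have : h ^ 2 * t ≤ 3 / 2 * (ε * t) := by nlinarith
    linarith
  have hgh : h ≤ g := by
    rw [hg, le_div_iff₀ hsc]
    exact mul_le_mul_of_nonneg_left (Real.sqrt_le_sqrt (by linarith)) h0.le
  have hpi1 : 1 ≤ 2 / √Real.pi := by
    rw [le_div_iff₀ (Real.sqrt_pos.2 Real.pi_pos)]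
    have h8 : √Real.pi ≤ 2 := by
      apply Real.sqrt_le_iff.2
      exact ⟨by norm_num, by linarith [Real.pi_lt_four]⟩
    linarith
  have h2 : g / 2 ≤ Erf g := by
    have h3 := Erf_low hg0.le
    have h4 : g / 2 ≤ g - g ^ 3 / 3 := by
      have : g * g ^ 2 ≤ g * (3 / 2) := mul_le_mul_of_nonneg_left hg2 hg0.le
      nlinarith
    have h5 : 1 * (g - g ^ 3 / 3) ≤ 2 / √Real.pi * (g - g ^ 3 / 3) :=
      mul_le_mul_of_nonneg_right hpi1 (by linarith)
    linarith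
  calc (1 : ℝ) ≤ K * h / 2 := by linarith
    _ = K * (h / 2) := by ring
    _ ≤ K * Erf g := mul_le_mul_of_nonneg_left (by linarith) (Nat.cast_nonneg K)

/-- the function of the pattern -/
noncomputable def Fp (K : ℕ) (v : Fin (2 * K + 1) → ℤ) : ℝ :=
  ((univ.image v).card - ((univ.filter (fun i : Fin (2 * K + 1) => K ≤ (i : ℕ))).image v).card) / (2 * K + 1)

theorem Fp_pat (K : ℕ) (v w : Fin (2 * K + 1) → ℤ) (h : ∀ i i', v i = v i' ↔ w i = w i') :
    Fp K v = Fp K w := by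
  unfold Fp
  rw [card_pat univ v w h, card_pat (univ.filter (fun i : Fin (2 * K + 1) => K ≤ (i : ℕ))) v w h]

theorem img_half (f : ℕ → ℤ) (a K : ℕ) :
    (univ.filter (fun i : Fin (2 * K + 1) => K ≤ (i : ℕ))).image (fun i : Fin (2 * K + 1) => f (a + i)) =
      (Icc (a + K) (a + 2 * K)).image f := by
  ext y
  simp only [mem_image, mem_filter, mem_univ, true_and, mem_Icc]
  constructor
  · rintro ⟨i, hi, rfl⟩
    exact ⟨a + i, ⟨by omega, by have := i.2; omega⟩, rfl⟩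
  · rintro ⟨m, ⟨h1, h2⟩, rfl⟩
    refine ⟨⟨m - a, by omega⟩, by show K ≤ m - a; omega, ?_⟩
    congr 1
    show a + (m - a) = m
    omega

theorem Zb_Fp (K : ℕ) (f : ℤ → ℕ → ℤ) (b : ℕ) (x : ℤ) :
    Zb K f b x = (2 * K + 1) * Fp K (fun i => f x (b * K + i)) := by
  unfold Fp Zb
  rw [img_half (f x) (b * K) K, img_fin (f x) (b * K) (2 * K)]
  field_simp

theorem Fp_abs (K : ℕ) (v : Fin (2 * K + 1) → ℤ) : |Fp K v| ≤ 1 := by
  unfold Fp
  have h1 : ((univ.filter (fun i : Fin (2 * K + 1) => K ≤ (i : ℕ))).image v).card ≤ (univ.image v).card :=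
    card_le_card (image_subset_image (filter_subset _ _))
  have h2 : (univ.image v).card ≤ 2 * K + 1 := by
    refine card_image_le.trans ?_
    rw [card_univ, Fintype.card_fin]
  have h1' : (((univ.filter (fun i : Fin (2 * K + 1) => K ≤ (i : ℕ))).image v).card : ℝ) ≤
      (univ.image v).card := by exact_mod_cast h1
  have h2' : ((univ.image v).card : ℝ) ≤ 2 * K + 1 := by exact_mod_cast h2
  have h3 : (0 : ℝ) ≤ ((univ.filter (fun i : Fin (2 * K + 1) => K ≤ (i : ℕ))).image v).card :=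
    Nat.cast_nonneg _
  rw [abs_of_nonneg (div_nonneg (by linarith) (by positivity)), div_le_one (by positivity)]
  linarith

/-- the mean of the number of new places -/
theorem mean_Zb {t L K Δ k0 b : ℕ} {C ε₀ h₀ e₁ : ℝ} (J : ℕ → ℤ → ℕ)
    (hΔ : |kap * Δ - h₀ * √t| ≤ 1)
    (hlast : ((k0 + (b * K + 2 * K) * Δ : ℕ) : ℝ) ≤ (1 - ε₀) * t)
    (hLN : ∀ m ≤ b * K + 2 * K, LN C L (k0 + m * Δ) (J m))
    (hA1 : ∀ k : Fin (K + 1) → ℕ, (∀ i : Fin K, |kap * ((k i.succ : ℝ) - k i.castSucc) - h₀ * √t| ≤ 1) →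
      (k (Fin.last K) : ℝ) ≤ (1 - ε₀) * t → ∀ j : Fin (K + 1) → ℤ → ℕ, (∀ i, LN C L (k i) (j i)) →
      |EE t (fun x => ((univ.image fun i => (oc t (x + j i x) : ℤ)).card : ℝ)) -
        (1 + K * Erf (h₀ * √t / √((t : ℝ) - k (Fin.last K))))| ≤ e₁)
    (hA2 : ∀ k : Fin (2 * K + 1) → ℕ, (∀ i : Fin (2 * K), |kap * ((k i.succ : ℝ) - k i.castSucc) - h₀ * √t| ≤ 1) →
      (k (Fin.last (2 * K)) : ℝ) ≤ (1 - ε₀) * t → ∀ j : Fin (2 * K + 1) → ℤ → ℕ, (∀ i, LN C L (k i) (j i)) →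
      |EE t (fun x => ((univ.image fun i => (oc t (x + j i x) : ℤ)).card : ℝ)) -
        (1 + (2 * K : ℕ) * Erf (h₀ * √t / √((t : ℝ) - k (Fin.last (2 * K)))))| ≤ e₁) :
    K * Erf (h₀ * √t / √((t : ℝ) - (k0 + (b * K + 2 * K) * Δ : ℕ))) - 2 * e₁ ≤
      EE t (Zb K (fun x m => (oc t (x + J m x) : ℤ)) b) := by
  have hstep : ∀ m : ℕ, |kap * (((k0 + (m + 1) * Δ : ℕ) : ℝ) - (k0 + m * Δ : ℕ)) - h₀ * √t| ≤ 1 := by
    intro m
    have e1 : ((k0 + (m + 1) * Δ : ℕ) : ℝ) - (k0 + m * Δ : ℕ) = Δ := by push_cast; ring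
    rw [e1]
    exact hΔ
  have a1 := hA1 (fun i => k0 + (b * K + K + i) * Δ) (fun i => by
    have := hstep (b * K + K + i)
    simpa only [Fin.val_succ, Fin.val_castSucc, ← add_assoc] using this) (by
    have e1 : b * K + K + (Fin.last K : ℕ) = b * K + 2 * K := by rw [Fin.val_last]; ring
    rw [e1]
    exact hlast) (fun i => J (b * K + K + i)) (fun i => hLN _ (by have := i.2; omega))
  have a2 := hA2 (fun i => k0 + (b * K + i) * Δ) (fun i => by
    have := hstep (b * K + i)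
    simpa only [Fin.val_succ, Fin.val_castSucc, ← add_assoc] using this) (by
    rw [Fin.val_last]
    exact hlast) (fun i => J (b * K + i)) (fun i => hLN _ (by have := i.2; omega))
  have e1 : b * K + K + (Fin.last K : ℕ) = b * K + 2 * K := by rw [Fin.val_last]; ring
  rw [e1] at a1
  rw [Fin.val_last] at a2
  have e2 : (fun x : ℤ => ((univ.image fun i : Fin (K + 1) => (oc t (x + J (b * K + K + i) x) : ℤ)).card : ℝ)) =
      fun x => (((Icc (b * K + K) (b * K + 2 * K)).image (fun m => (oc t (x + J m x) : ℤ))).card : ℝ) := by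
    funext x
    rw [img_fin (fun m => (oc t (x + J m x) : ℤ)) (b * K + K) K]
    rw [show b * K + K + K = b * K + 2 * K by ring]
  have e3 : (fun x : ℤ => ((univ.image fun i : Fin (2 * K + 1) => (oc t (x + J (b * K + i) x) : ℤ)).card : ℝ)) =
      fun x => (((Icc (b * K) (b * K + 2 * K)).image (fun m => (oc t (x + J m x) : ℤ))).card : ℝ) := by
    funext x
    rw [img_fin (fun m => (oc t (x + J m x) : ℤ)) (b * K) (2 * K)]
  rw [e2] at a1
  rw [e3] at a2
  have e4 : EE t (Zb K (fun x m => (oc t (x + J m x) : ℤ)) b) =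
      EE t (fun x => (((Icc (b * K) (b * K + 2 * K)).image (fun m => (oc t (x + J m x) : ℤ))).card : ℝ)) -
      EE t (fun x => (((Icc (b * K + K) (b * K + 2 * K)).image (fun m => (oc t (x + J m x) : ℤ))).card : ℝ)) := by
    rw [← EE_sub]
    rfl
  rw [e4]
  have b1 := (abs_le.1 a1).2
  have b2 := (abs_le.1 a2).1
  push_cast at b1 b2 ⊢
  linarith

/-- the covariances -/
theorem cov_Zb {t L K Δ k0 b b' : ℕ} {C ε₀ h₀ e₂ ρ D₀ : ℝ} (J : ℕ → ℤ → ℕ)
    (hΔ : |kap * Δ - h₀ * √t| ≤ 1)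
    (hlast : ((k0 + (b' * K + 2 * K) * Δ : ℕ) : ℝ) ≤ (1 - ε₀) * t) (hbb : b + 2 ≤ b')
    (hLN : ∀ m ≤ b' * K + 2 * K, LN C L (k0 + m * Δ) (J m))
    (hlo : D₀ * √t ≤ ((b' : ℝ) - b - 2) * K * (kap * Δ))
    (hup : ((b' : ℝ) - b - 2) * K * (kap * Δ) ≤ ρ * (t / Real.log t))
    (hC : ∀ k k' : Fin (2 * K + 1) → ℕ, (∀ i : Fin (2 * K), |kap * ((k i.succ : ℝ) - k i.castSucc) - h₀ * √t| ≤ 1) →
      (∀ i : Fin (2 * K), |kap * ((k' i.succ : ℝ) - k' i.castSucc) - h₀ * √t| ≤ 1) →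
      D₀ * √t ≤ kap * ((k' 0 : ℝ) - k (Fin.last (2 * K))) →
      kap * ((k' 0 : ℝ) - k (Fin.last (2 * K))) ≤ ρ * (t / Real.log t) →
      (k' (Fin.last (2 * K)) : ℝ) ≤ (1 - ε₀) * t →
      ∀ j j' : Fin (2 * K + 1) → ℤ → ℕ, (∀ i, LN C L (k i) (j i)) → (∀ i, LN C L (k' i) (j' i)) →
      ∀ F F' : (Fin (2 * K + 1) → ℤ) → ℝ, (∀ z, |F z| ≤ 1) → (∀ z, |F' z| ≤ 1) →
      (∀ v w, (∀ i i', v i = v i' ↔ w i = w i') → F v = F w) →
      (∀ v w, (∀ i i', v i = v i' ↔ w i = w i') → F' v = F' w) →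
      |EE t (fun x => F (fun i => (oc t (x + j i x) : ℤ)) * F' (fun i => (oc t (x + j' i x) : ℤ))) -
        EE t (fun x => F (fun i => (oc t (x + j i x) : ℤ))) * EE t (fun x => F' (fun i => (oc t (x + j' i x) : ℤ)))| ≤ e₂) :
    |EE t (fun x => Zb K (fun x m => (oc t (x + J m x) : ℤ)) b x * Zb K (fun x m => (oc t (x + J m x) : ℤ)) b' x) -
      EE t (Zb K (fun x m => (oc t (x + J m x) : ℤ)) b) * EE t (Zb K (fun x m => (oc t (x + J m x) : ℤ)) b')| ≤
      (2 * K + 1) ^ 2 * e₂ := by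
  have hstep : ∀ m : ℕ, |kap * (((k0 + (m + 1) * Δ : ℕ) : ℝ) - (k0 + m * Δ : ℕ)) - h₀ * √t| ≤ 1 := by
    intro m
    have e1 : ((k0 + (m + 1) * Δ : ℕ) : ℝ) - (k0 + m * Δ : ℕ) = Δ := by push_cast; ring
    rw [e1]
    exact hΔ
  have hle : b * K + 2 * K ≤ b' * K := by nlinarith
  have edist : kap * (((k0 + (b' * K + (0 : Fin (2 * K + 1))) * Δ : ℕ) : ℝ) -
      (k0 + (b * K + (Fin.last (2 * K) : ℕ)) * Δ : ℕ)) = ((b' : ℝ) - b - 2) * K * (kap * Δ) := by
    rw [Fin.val_last]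
    push_cast
    rw [Fin.val_zero]
    push_cast
    ring
  have key := hC (fun i => k0 + (b * K + i) * Δ) (fun i => k0 + (b' * K + i) * Δ)
    (fun i => by
      have := hstep (b * K + i)
      simpa only [Fin.val_succ, Fin.val_castSucc, ← add_assoc] using this)
    (fun i => by
      have := hstep (b' * K + i)
      simpa only [Fin.val_succ, Fin.val_castSucc, ← add_assoc] using this)
    (by rw [edist]; exact hlo) (by rw [edist]; exact hup)
    (by rw [Fin.val_last]; exact hlast)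
    (fun i => J (b * K + i)) (fun i => J (b' * K + i))
    (fun i => hLN _ (by have := i.2; omega))
    (fun i => hLN _ (by have := i.2; omega))
    (Fp K) (Fp K) (Fp_abs K) (Fp_abs K) (Fp_pat K) (Fp_pat K)
  have e1 : (fun x => Zb K (fun x m => (oc t (x + J m x) : ℤ)) b x *
      Zb K (fun x m => (oc t (x + J m x) : ℤ)) b' x) = fun x => (2 * (K : ℝ) + 1) ^ 2 *
      (Fp K (fun i => (oc t (x + J (b * K + i) x) : ℤ)) * Fp K (fun i => (oc t (x + J (b' * K + i) x) : ℤ))) := by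
    funext x
    rw [Zb_Fp, Zb_Fp]
    ring
  have e2 : ∀ b : ℕ, EE t (Zb K (fun x m => (oc t (x + J m x) : ℤ)) b) =
      (2 * (K : ℝ) + 1) * EE t (fun x => Fp K (fun i => (oc t (x + J (b * K + i) x) : ℤ))) := by
    intro b
    rw [← EE_mul]
    congr 1
    funext x
    rw [Zb_Fp]
  rw [e1, EE_mul, e2, e2]
  rw [show (2 * (K : ℝ) + 1) ^ 2 * EE t (fun x => Fp K (fun i => (oc t (x + J (b * K + i) x) : ℤ)) *
        Fp K (fun i => (oc t (x + J (b' * K + i) x) : ℤ))) -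
      (2 * (K : ℝ) + 1) * EE t (fun x => Fp K (fun i => (oc t (x + J (b * K + i) x) : ℤ))) *
      ((2 * (K : ℝ) + 1) * EE t (fun x => Fp K (fun i => (oc t (x + J (b' * K + i) x) : ℤ)))) =
      (2 * (K : ℝ) + 1) ^ 2 * (EE t (fun x => Fp K (fun i => (oc t (x + J (b * K + i) x) : ℤ)) *
        Fp K (fun i => (oc t (x + J (b' * K + i) x) : ℤ))) -
      EE t (fun x => Fp K (fun i => (oc t (x + J (b * K + i) x) : ℤ))) *
      EE t (fun x => Fp K (fun i => (oc t (x + J (b' * K + i) x) : ℤ)))) by ring]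
  rw [abs_mul, abs_of_nonneg (by positivity : (0 : ℝ) ≤ (2 * (K : ℝ) + 1) ^ 2)]
  exact mul_le_mul_of_nonneg_left key (by positivity)

end Pool.Agent.Q96.BT
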