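import Pool.Agent.Q96.BT.LP3

/-!
# Project BT, part 7, job LowP: the bound at a fixed time
-/

set_option autoImplicit false

namespace Pool.Agent.Q96.BT

open Finset
open Pool.Agent.Q158.Pair (T)
open Pool.Agent.Q74.AR (oc oc_le oc_per)
open Pool.Agent.Q74.KP (EE Erf EE_mono EE_add EE_sub EE_mul EE_const EE_sum EE_nonneg EE_abs)
open Pool.Agent.Q74.BT

/-- the lower tail at a fixed time -/
theorem core {t L K Δ k0 n q Q : ℕ} {C C₁ ε₀ h₀ e₁ e₂ c ρ D₀ : ℝ}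
    (ht : 1 ≤ t) (hC : 1 ≤ C) (hL : 1 ≤ L) (hε₀ : 0 < ε₀) (hh0 : 0 < h₀) (hh : 2 * h₀ ^ 2 ≤ 3 * ε₀)
    (hKh : 2 ≤ K * h₀) (hK4 : 4 ≤ K * h₀ ^ 2) (hc : 0 < c) (he1 : 0 ≤ e₁) (he2 : 0 ≤ e₂)
    (hs : 2 * e₁ + 2 * c ≤ 1) (hn : 1 ≤ n) (hQ : 1 ≤ Q)
    (hΔ : |kap * Δ - h₀ * √t| ≤ 1) (hΔ2 : kap * Δ ≤ h₀ * √t)
    (hΔ3 : ∀ p : ℕ, K ≤ p → p * h₀ * √t / 2 + C₁ ≤ kap * (p * Δ))
    (hlast : ((k0 + (n * Q * K + K) * Δ : ℕ) : ℝ) ≤ (1 - ε₀) * t)
    (hN : ∀ k : ℕ, k0 ≤ k → k ≤ k0 + (n * Q * K + K) * Δ → ∃ j, LN C L k j)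
    (hbig : 8 * (2 * C + 1) * (C * L) ≤ 2 ^ k0)
    (hA1 : ∀ k : Fin (K + 1) → ℕ, (∀ i : Fin K, |kap * ((k i.succ : ℝ) - k i.castSucc) - h₀ * √t| ≤ 1) →
      (k (Fin.last K) : ℝ) ≤ (1 - ε₀) * t → ∀ j : Fin (K + 1) → ℤ → ℕ, (∀ i, LN C L (k i) (j i)) →
      |EE t (fun x => ((univ.image fun i => (oc t (x + j i x) : ℤ)).card : ℝ)) -
        (1 + K * Erf (h₀ * √t / √((t : ℝ) - k (Fin.last K))))| ≤ e₁)
    (hA2 : ∀ k : Fin (2 * K + 1) → ℕ, (∀ i : Fin (2 * K), |kap * ((k i.succ : ℝ) - k i.castSucc) - h₀ * √t| ≤ 1) →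
      (k (Fin.last (2 * K)) : ℝ) ≤ (1 - ε₀) * t → ∀ j : Fin (2 * K + 1) → ℤ → ℕ, (∀ i, LN C L (k i) (j i)) →
      |EE t (fun x => ((univ.image fun i => (oc t (x + j i x) : ℤ)).card : ℝ)) -
        (1 + (2 * K : ℕ) * Erf (h₀ * √t / √((t : ℝ) - k (Fin.last (2 * K)))))| ≤ e₁)
    (hF : ∀ (L t k k' : ℕ) (j j' : ℤ → ℕ) (D : ℝ), 1 ≤ L → k ≤ k' → k' ≤ t → 1 ≤ t → LN C L k j → LN C L k' j' → 0 ≤ D →
      D + C₁ ≤ kap * ((k' : ℝ) - k) →
      EE t (fun x => Set.indicator {x : ℤ | oc t (x + j x) = oc t (x + j' x)} 1 x) ≤ 4 * Real.exp (-(D ^ 2 / (2 * t))))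
    (hcov : ∀ k k' : Fin (2 * K + 1) → ℕ, (∀ i : Fin (2 * K), |kap * ((k i.succ : ℝ) - k i.castSucc) - h₀ * √t| ≤ 1) →
      (∀ i : Fin (2 * K), |kap * ((k' i.succ : ℝ) - k' i.castSucc) - h₀ * √t| ≤ 1) →
      D₀ * √t ≤ kap * ((k' 0 : ℝ) - k (Fin.last (2 * K))) →
      kap * ((k' 0 : ℝ) - k (Fin.last (2 * K))) ≤ ρ * (t / Real.log t) →
      (k' (Fin.last (2 * K)) : ℝ) ≤ (1 - ε₀) * t →
      ∀ j j' : Fin (2 * K + 1) → ℤ → ℕ, (∀ i, LN C L (k i) (j i)) → (∀ i, LN C L (k' i) (j' i)) →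
      ∀ F F' : (Fin (2 * K + 1) → ℤ) → ℝ, (∀ z, |F z| ≤ 1) → (∀ z, |F' z| ≤ 1) →
      (∀ v w, (∀ i i', v i = v i' ↔ w i = w i') → F v = F w) →
      (∀ v w, (∀ i i', v i = v i' ↔ w i = w i') → F' v = F' w) →
      |EE t (fun x => F (fun i => (oc t (x + j i x) : ℤ)) * F' (fun i => (oc t (x + j' i x) : ℤ))) -
        EE t (fun x => F (fun i => (oc t (x + j i x) : ℤ))) * EE t (fun x => F' (fun i => (oc t (x + j' i x) : ℤ)))| ≤ e₂)
    (hq : 2 ≤ q) (hlo : D₀ * √t ≤ ((q : ℝ) - 2) * K * (kap * Δ))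
    (hup : (n : ℝ) * K * (kap * Δ) ≤ ρ * (t / Real.log t)) :
    EE t (fun x => Set.indicator {x : ℤ | ((LSg L t x).card : ℝ) < (1 - (2 * e₁ + 2 * c)) *
      (4 * kap / √Real.pi * ((1 - h₀ ^ 2 / (3 * ε₀)) * (√((t : ℝ) - k0) -
        √((t : ℝ) - (k0 + n * Q * K * Δ : ℕ)))))} 1 x) ≤
    √(2 * q * n * (2 * K + 1) ^ 2 + n ^ 2 * ((2 * K + 1) ^ 2 * e₂)) / (c * n) +
      (K + 1) * (8 * Real.exp (-((K * h₀) ^ 2 / 8))) / c := by
  classical
  have htr : (1 : ℝ) ≤ t := by exact_mod_cast ht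
  have ht0 : (0 : ℝ) < t := by linarith
  have hst : 0 < √(t : ℝ) := Real.sqrt_pos.2 ht0
  have hkap := kap_pos
  have hK0 : 0 < K := by
    rcases Nat.eq_zero_or_pos K with h | h
    · rw [h] at hKh
      norm_num at hKh
    · exact h
  set B := n * Q with hB
  -- the nets
  have hJ : ∀ m : ℕ, ∃ j : ℤ → ℕ, m ≤ B * K + K → LN C L (k0 + m * Δ) j := by
    intro m
    by_cases hm : m ≤ B * K + K
    · obtain ⟨j, hj⟩ := hN (k0 + m * Δ) (Nat.le_add_right _ _)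
        (Nat.add_le_add_left (Nat.mul_le_mul_right _ hm) _)
      exact ⟨j, fun _ => hj⟩
    · exact ⟨fun _ => 0, fun h => absurd h hm⟩
  choose J hJ using hJ
  set f : ℤ → ℕ → ℤ := fun x m => (oc t (x + J m x) : ℤ) with hf
  have hτ : ∀ m ≤ B * K + K, k0 + m * Δ ≤ t := by
    intro m hm
    have h1 : k0 + m * Δ ≤ k0 + (B * K + K) * Δ := Nat.add_le_add_left (Nat.mul_le_mul_right _ hm) _
    have h2 : ((k0 + m * Δ : ℕ) : ℝ) ≤ (k0 + (B * K + K) * Δ : ℕ) := by exact_mod_cast h1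
    have h3 : (1 - ε₀) * t ≤ t := by nlinarith
    have : ((k0 + m * Δ : ℕ) : ℝ) ≤ t := by linarith
    exact_mod_cast this
  have hlast' : ∀ m ≤ B * K + K, ((k0 + m * Δ : ℕ) : ℝ) ≤ (1 - ε₀) * t := by
    intro m hm
    have h1 : k0 + m * Δ ≤ k0 + (B * K + K) * Δ := Nat.add_le_add_left (Nat.mul_le_mul_right _ hm) _
    have h2 : ((k0 + m * Δ : ℕ) : ℝ) ≤ (k0 + (B * K + K) * Δ : ℕ) := by exact_mod_cast h1
    linarith
  have hbK : ∀ b < B, b * K + 2 * K ≤ B * K + K := by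
    intro b hb
    have : (b + 1) * K ≤ B * K := Nat.mul_le_mul_right _ hb
    nlinarith
  -- the covariances
  have hcov' : ∀ b b', b < n * Q → b' < n * Q → b + q ≤ b' → b' ≤ b + n →
      |EE t (fun x => Zb K f b x * Zb K f b' x) - EE t (Zb K f b) * EE t (Zb K f b')| ≤
        (2 * K + 1) ^ 2 * e₂ := by
    intro b b' _ hb' hbb hbn
    have hKΔ : 0 ≤ (K : ℝ) * (kap * Δ) := by positivity
    have hbr : (b : ℝ) + q ≤ b' := by exact_mod_cast hbb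
    have hbr' : (b' : ℝ) ≤ b + n := by exact_mod_cast hbn
    apply cov_Zb (C := C) (ε₀ := ε₀) (h₀ := h₀) (ρ := ρ) (D₀ := D₀) J hΔ
      (hlast' _ (hbK b' hb')) (by omega) (fun m hm => hJ m (hm.trans (hbK b' hb')))
    · refine hlo.trans ?_
      have : ((q : ℝ) - 2) * (K * (kap * Δ)) ≤ ((b' : ℝ) - b - 2) * (K * (kap * Δ)) :=
        mul_le_mul_of_nonneg_right (by linarith) hKΔ
      linarith
    · refine le_trans ?_ hup
      have : ((b' : ℝ) - b - 2) * (K * (kap * Δ)) ≤ (n : ℝ) * (K * (kap * Δ)) :=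
        mul_le_mul_of_nonneg_right (by linarith) hKΔ
      linarith
    · exact hcov
  have hfar' : ∀ m m', m + K ≤ m' → m' ≤ n * Q * K + K →
      EE t (fun x => Set.indicator {x : ℤ | f x m = f x m'} 1 x) ≤
        4 * Real.exp (-((((m' : ℝ) - m) * h₀) ^ 2 / 8)) := by
    intro m m' h1 h2
    obtain ⟨p, rfl⟩ := Nat.exists_eq_add_of_le (show m ≤ m' by omega)
    have hp : K ≤ p := by omega
    have h2' : m + p ≤ B * K + K := h2
    have hm : m ≤ B * K + K := by omega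
    have h3 := hF L t (k0 + m * Δ) (k0 + (m + p) * Δ) (J m) (J (m + p)) (p * h₀ * √t / 2) hL
      (Nat.add_le_add_left (Nat.mul_le_mul_right _ (Nat.le_add_right _ _)) _)
      (hτ _ h2) ht (hJ m hm) (hJ (m + p) h2) (by positivity) (by
        have e1 : ((k0 + (m + p) * Δ : ℕ) : ℝ) - (k0 + m * Δ : ℕ) = p * Δ := by push_cast; ring
        rw [e1]
        exact hΔ3 p hp)
    have e2 : (fun x : ℤ => Set.indicator {x : ℤ | f x m = f x (m + p)} (1 : ℤ → ℝ) x) =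
        fun x => Set.indicator {x : ℤ | oc t (x + J m x) = oc t (x + J (m + p) x)} 1 x := by
      funext x
      congr 1
      ext y
      show f y m = f y (m + p) ↔ oc t (y + J m y) = oc t (y + J (m + p) y)
      rw [hf]
      show ((oc t (y + J m y) : ℤ) = (oc t (y + J (m + p) y) : ℤ)) ↔ _
      exact Nat.cast_inj
    rw [e2]
    refine h3.trans (le_of_eq ?_)
    have e3 : (p * h₀ * √(t : ℝ) / 2) ^ 2 / (2 * t) = ((((m + p : ℕ) : ℝ) - m) * h₀) ^ 2 / 8 := by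
      rw [div_pow, mul_pow, mul_pow, Real.sq_sqrt ht0.le]
      push_cast
      field_simp
      ring
    rw [e3]
  have hmain := prob_low t f K n q Q (h := h₀) (c := c) (e := (2 * K + 1) ^ 2 * e₂) hK4 hc (by positivity)
    hn hQ hcov' hfar'
  -- inclusion of the events
  have hsub : ∀ x, (((Icc 0 (n * Q * K + K)).image (f x)).card : ℝ) ≤ (LSg L t x).card := by
    intro x
    have : (Icc 0 (n * Q * K + K)).image (f x) ⊆ LSg L t x := by
      intro y hy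
      obtain ⟨m, hm, rfl⟩ := mem_image.1 hy
      rw [mem_Icc] at hm
      apply mem_LSg hC hL (hJ m hm.2) (hτ m hm.2)
      refine hbig.trans ?_
      exact pow_le_pow_right₀ (by norm_num) (Nat.le_add_right _ _)
    exact_mod_cast card_le_card this
  have hsum : (1 - (2 * e₁ + 2 * c)) *
      (4 * kap / √Real.pi * ((1 - h₀ ^ 2 / (3 * ε₀)) * (√((t : ℝ) - k0) -
        √((t : ℝ) - (k0 + n * Q * K * Δ : ℕ))))) ≤
      ∑ b ∈ range (n * Q), EE t (Zb K f b) - 2 * c * (n * Q) := by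
    have h1 : ∀ b ∈ range (n * Q), (1 - (2 * e₁ + 2 * c)) * (4 * kap / √Real.pi *
        ((1 - h₀ ^ 2 / (3 * ε₀)) * (√((t : ℝ) - (k0 + b * K * Δ : ℕ)) -
          √((t : ℝ) - (k0 + (b + 1) * K * Δ : ℕ))))) ≤ EE t (Zb K f b) - 2 * c := by
      intro b hb
      rw [mem_range] at hb
      have h2 := mean_Zb (C := C) (ε₀ := ε₀) (h₀ := h₀) (e₁ := e₁) (b := b) J hΔ
        (hlast' _ (hbK b hb)) (fun m hm => hJ m (hm.trans (hbK b hb))) hA1 hA2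
      have h3 := erf_term (t := t) (a := (k0 + b * K * Δ : ℕ)) (b := (k0 + (b + 1) * K * Δ : ℕ))
        (c := (k0 + (b * K + 2 * K) * Δ : ℕ)) (ε := ε₀) (h := h₀) (K := K) ht0 hε₀ hh0
        (by nlinarith) (by
          have : k0 + (b + 1) * K * Δ ≤ k0 + (b * K + 2 * K) * Δ :=
            Nat.add_le_add_left (Nat.mul_le_mul_right _ (by nlinarith)) _
          exact_mod_cast this) (hlast' _ (hbK b hb)) (by
          have e1 : ((k0 + (b + 1) * K * Δ : ℕ) : ℝ) - (k0 + b * K * Δ : ℕ) = K * Δ := by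
            push_cast; ring
          rw [e1]
          calc kap * (K * Δ) = K * (kap * Δ) := by ring
            _ ≤ K * (h₀ * √t) := mul_le_mul_of_nonneg_left hΔ2 (Nat.cast_nonneg K))
      have h4 := erf_one (t := t) (c := (k0 + (b * K + 2 * K) * Δ : ℕ)) (ε := ε₀) (h := h₀) (K := K)
        ht0 hε₀ hh0 hh (Nat.cast_nonneg _) (hlast' _ (hbK b hb)) hKh
      set G := (K : ℝ) * Erf (h₀ * √t / √((t : ℝ) - (k0 + (b * K + 2 * K) * Δ : ℕ))) with hG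
      have h5 : (1 - (2 * e₁ + 2 * c)) * (4 * kap / √Real.pi *
        ((1 - h₀ ^ 2 / (3 * ε₀)) * (√((t : ℝ) - (k0 + b * K * Δ : ℕ)) -
          √((t : ℝ) - (k0 + (b + 1) * K * Δ : ℕ))))) ≤ (1 - (2 * e₁ + 2 * c)) * G :=
        mul_le_mul_of_nonneg_left h3 (by linarith)
      have h6 : (2 * e₁ + 2 * c) * 1 ≤ (2 * e₁ + 2 * c) * G :=
        mul_le_mul_of_nonneg_left h4 (by linarith)
      have h7 : EE t (Zb K f b) = EE t (Zb K (fun x m => (oc t (x + J m x) : ℤ)) b) := rfl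
      rw [h7]
      linarith
    have h8 := sum_le_sum h1
    rw [← mul_sum, ← mul_sum, ← mul_sum, sum_sub_distrib (s := range (n * Q)) (f := fun b => EE t (Zb K f b)),
      sum_const, card_range, nsmul_eq_mul] at h8
    have h9 : ∑ b ∈ range (n * Q), (√((t : ℝ) - (k0 + b * K * Δ : ℕ)) -
        √((t : ℝ) - (k0 + (b + 1) * K * Δ : ℕ))) =
        √((t : ℝ) - k0) - √((t : ℝ) - (k0 + n * Q * K * Δ : ℕ)) := by
      rw [sum_range_sub' (fun b : ℕ => √((t : ℝ) - (k0 + b * K * Δ : ℕ))) (n * Q)]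
      simp
    rw [h9] at h8
    push_cast at h8 ⊢
    linarith
  refine le_trans (EE_mono t fun x => ?_) hmain
  apply Set.indicator_le_indicator_of_subset
  swap
  · exact fun _ => zero_le_one
  intro y hy
  have hy' : ((LSg L t y).card : ℝ) < (1 - (2 * e₁ + 2 * c)) *
      (4 * kap / √Real.pi * ((1 - h₀ ^ 2 / (3 * ε₀)) * (√((t : ℝ) - k0) -
        √((t : ℝ) - (k0 + n * Q * K * Δ : ℕ))))) := hy
  show (((Icc 0 (n * Q * K + K)).image (f y)).card : ℝ) <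
      ∑ b ∈ range (n * Q), EE t (Zb K f b) - 2 * c * (n * Q)
  have := hsub y
  linarith

end Pool.Agent.Q96.BT
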