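import Pool.Agent.Q96.BT.LP4

/-!
# Project BT, part 7, job LowP: the lower tail of the number of levels
-/

set_option autoImplicit false

namespace Pool.Agent.Q96.BT

open Finset
open Pool.Agent.Q158.Pair (T)
open Pool.Agent.Q74.AR (oc oc_le oc_per)
open Pool.Agent.Q74.KP (EE Erf EE_mono EE_add EE_sub EE_mul EE_const EE_sum EE_nonneg EE_abs)
open Pool.Agent.Q74.BT

theorem log_small (a b : ℝ) (hb : 0 < b) : ∃ t₁ : ℕ, ∀ t : ℕ, t₁ ≤ t → a * Real.log t ≤ b * √t := by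
  have h1 := (isLittleO_log_rpow_atTop (by norm_num : (0 : ℝ) < 1 / 2)).bound
    (div_pos hb (by positivity : (0 : ℝ) < |a| + 1))
  have h2 := tendsto_natCast_atTop_atTop (R := ℝ) |>.eventually h1
  rw [Filter.eventually_atTop] at h2
  obtain ⟨t₁, ht₁⟩ := h2
  refine ⟨t₁, fun t ht => ?_⟩
  have h3 := ht₁ t ht
  rw [Real.norm_eq_abs, Real.norm_eq_abs, ← Real.sqrt_eq_rpow, abs_of_nonneg (Real.sqrt_nonneg _)] at h3
  have h4 : a * Real.log t ≤ |a| * |Real.log t| := by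
    rw [← abs_mul]
    exact le_abs_self _
  have h5 : |a| * |Real.log t| ≤ |a| * (b / (|a| + 1) * √t) :=
    mul_le_mul_of_nonneg_left h3 (abs_nonneg _)
  have h6 : |a| * (b / (|a| + 1)) ≤ b := by
    rw [← mul_div_assoc, div_le_iff₀ (by positivity)]
    nlinarith [abs_nonneg a]
  have h7 : |a| * (b / (|a| + 1) * √t) ≤ b * √t := by
    calc |a| * (b / (|a| + 1) * √t) = |a| * (b / (|a| + 1)) * √t := by ring
      _ ≤ b * √t := mul_le_mul_of_nonneg_right h6 (Real.sqrt_nonneg _)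
  linarith

theorem sq_loss {t a x m : ℝ} (hm : 0 < m) (hx : 0 ≤ x) (h : m ^ 2 ≤ t - a - x) :
    √(t - a) - √(t - a - x) ≤ x / (2 * m) := by
  have h1 : m ≤ √(t - a - x) := Real.le_sqrt_of_sq_le h
  have h2 : √(t - a - x) ≤ √(t - a) := Real.sqrt_le_sqrt (by linarith)
  have h0 : 0 < m ^ 2 := by positivity
  have s1 := Real.sq_sqrt (by linarith : (0 : ℝ) ≤ t - a)
  have s2 := Real.sq_sqrt (by linarith : (0 : ℝ) ≤ t - a - x)
  rw [le_div_iff₀ (by positivity)]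
  have h3 : (√(t - a) - √(t - a - x)) * (2 * m) ≤
      (√(t - a) - √(t - a - x)) * (√(t - a) + √(t - a - x)) :=
    mul_le_mul_of_nonneg_left (by linarith) (by linarith)
  nlinarith

theorem sq_gain {t a b : ℝ} (ht : 0 < t) (ha : 0 ≤ a) (hab : a ≤ b) (hb : b ≤ t) :
    (b - a) / (2 * √t) ≤ √(t - a) - √(t - b) := by
  have hst : 0 < √t := Real.sqrt_pos.2 ht
  have h1 : √(t - a) ≤ √t := Real.sqrt_le_sqrt (by linarith)
  have h2 : √(t - b) ≤ √(t - a) := Real.sqrt_le_sqrt (by linarith)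
  have s1 := Real.sq_sqrt (by linarith : (0 : ℝ) ≤ t - a)
  have s2 := Real.sq_sqrt (by linarith : (0 : ℝ) ≤ t - b)
  rw [div_le_iff₀ (by positivity)]
  have h3 : (√(t - a) - √(t - b)) * (√(t - a) + √(t - b)) ≤ (√(t - a) - √(t - b)) * (2 * √t) :=
    mul_le_mul_of_nonneg_left (by linarith) (by linarith)
  nlinarith

theorem exists_K {h c : ℝ} (hh : 0 < h) (hc : 0 < c) : ∃ K : ℕ, 1 ≤ K ∧ 2 ≤ K * h ∧ 4 ≤ K * h ^ 2 ∧
    (K + 1) * (8 * Real.exp (-((K * h) ^ 2 / 8))) ≤ c := by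
  obtain ⟨K, hK⟩ := exists_nat_ge (1 + 2 / h + 4 / h ^ 2 + 2048 / (h ^ 4 * c))
  have p1 : 0 < 2 / h := by positivity
  have p2 : 0 < 4 / h ^ 2 := by positivity
  have p3 : 0 < 2048 / (h ^ 4 * c) := by positivity
  have k1 : (1 : ℝ) ≤ K := by linarith
  have k2 : 2 / h ≤ K := by linarith
  have k3 : 4 / h ^ 2 ≤ K := by linarith
  have k4 : 2048 / (h ^ 4 * c) ≤ K := by linarith
  rw [div_le_iff₀ hh] at k2
  rw [div_le_iff₀ (by positivity)] at k3 k4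
  refine ⟨K, by exact_mod_cast k1, k2, k3, ?_⟩
  set y : ℝ := (K * h) ^ 2 / 8 with hy
  have hy0 : 0 < y := by positivity
  have h1 : y ^ 2 / 2 ≤ Real.exp y := by
    have := Real.quadratic_le_exp_of_nonneg hy0.le
    linarith
  have h2 : Real.exp (-y) ≤ 2 / y ^ 2 := by
    rw [Real.exp_neg, ← one_div, div_le_div_iff₀ (Real.exp_pos y) (by positivity)]
    linarith
  have h3 : (K + 1) * (8 * Real.exp (-y)) ≤ (2 * K) * (8 * (2 / y ^ 2)) :=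
    mul_le_mul (by linarith) (by linarith) (by positivity) (by positivity)
  refine h3.trans ?_
  have h4 : (2 * (K : ℝ)) * (8 * (2 / y ^ 2)) = 2048 / (K ^ 3 * h ^ 4) := by
    rw [hy]
    field_simp
    ring
  rw [h4, div_le_iff₀ (by positivity)]
  have h5 : (K : ℝ) ≤ K ^ 3 := by nlinarith
  have h6 : K * (h ^ 4 * c) ≤ K ^ 3 * (h ^ 4 * c) := mul_le_mul_of_nonneg_right h5 (by positivity)
  linarith

theorem le_of_log' {a b : ℕ} (hb : 1 ≤ b) (h : Real.log a ≤ Real.log b) : a ≤ b := by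
  rcases Nat.eq_zero_or_pos a with h0 | h0
  · omega
  · have ha : (0 : ℝ) < a := by exact_mod_cast h0
    have hb' : (0 : ℝ) < b := by exact_mod_cast (by omega : 0 < b)
    have := (Real.log_le_log_iff ha hb').1 h
    exact_mod_cast this

/-- the step -/
theorem exists_step {h₀ C₁ : ℝ} {K t : ℕ} (hK1 : 1 ≤ K) (hx0 : 2 * |C₁| + 2 ≤ h₀ * √t) :
    ∃ Δ : ℕ, 0 < Δ ∧ kap * Δ ≤ h₀ * √t ∧ h₀ * √t - 1 / 2 ≤ kap * Δ ∧ |kap * Δ - h₀ * √t| ≤ 1 ∧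
    ∀ p : ℕ, K ≤ p → p * h₀ * √t / 2 + C₁ ≤ kap * (p * Δ) := by
  have hkap := kap_pos
  have hkap2 := kap_le
  have hC1 : 0 ≤ |C₁| := abs_nonneg _
  have hC1' : C₁ ≤ |C₁| := le_abs_self _
  have hpos : 0 ≤ h₀ * √t := by linarith
  obtain ⟨Δ, hΔ⟩ : ∃ Δ : ℕ, Δ = ⌊h₀ * √t / kap⌋₊ := ⟨_, rfl⟩
  have hΔ1 : kap * Δ ≤ h₀ * √t := by
    have h5 : (Δ : ℝ) ≤ h₀ * √t / kap := by rw [hΔ]; exact Nat.floor_le (by positivity)
    rw [le_div_iff₀ hkap] at h5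
    linarith
  have hΔ2 : h₀ * √t - 1 / 2 ≤ kap * Δ := by
    have h5 : h₀ * √t / kap < Δ + 1 := by rw [hΔ]; exact Nat.lt_floor_add_one _
    rw [div_lt_iff₀ hkap] at h5
    linarith
  refine ⟨Δ, ?_, hΔ1, hΔ2, ?_, ?_⟩
  · have h6 : 0 < kap * Δ := by linarith
    have h7 : (0 : ℝ) < Δ := by
      by_contra h
      push Not at h
      have : kap * (Δ : ℝ) ≤ 0 := mul_nonpos_of_nonneg_of_nonpos hkap.le h
      linarith
    exact_mod_cast h7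
  · rw [abs_le]
    constructor <;> linarith
  · intro p hp
    have hp1 : (1 : ℝ) ≤ p := by
      have : 1 ≤ p := hK1.trans hp
      exact_mod_cast this
    have h5 : (p : ℝ) * (h₀ * √t - 1 / 2) ≤ p * (kap * Δ) := mul_le_mul_of_nonneg_left hΔ2 (by linarith)
    have h6 : 1 * (h₀ * √t / 2 - 1 / 2) ≤ p * (h₀ * √t / 2 - 1 / 2) :=
      mul_le_mul_of_nonneg_right hp1 (by linarith)
    have h7 : kap * (p * Δ) = p * (kap * Δ) := by ring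
    rw [h7]
    nlinarith

/-- the number of chunks -/
theorem exists_Q {β γ θ ℓ : ℝ} {n K Δ : ℕ} (hβ : 0 < β) (hn : 1 ≤ n) (hK : 1 ≤ K) (hΔ : 0 < Δ) (hℓ : 0 < ℓ)
    (hθ : 0 < θ) (hθℓ : 1 ≤ θ * ℓ) (hγ : 4 * θ < γ - β) (hstep : (n + 1) * K * (Δ : ℝ) ≤ θ * ℓ) :
    ∃ k0 Q : ℕ, 1 ≤ Q ∧ (β + θ) * ℓ ≤ k0 ∧ (k0 : ℝ) ≤ (β + 2 * θ) * ℓ ∧
      (γ - 2 * θ) * ℓ ≤ ((k0 + n * Q * K * Δ : ℕ) : ℝ) ∧
      ((k0 + (n * Q * K + K) * Δ : ℕ) : ℝ) ≤ (γ - θ) * ℓ := by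
  have hΔr : (0 : ℝ) < Δ := by exact_mod_cast hΔ
  have hKp : (0 : ℝ) < K := by exact_mod_cast (by omega : 0 < K)
  have hnp : (0 : ℝ) < n := by exact_mod_cast (by omega : 0 < n)
  obtain ⟨k0, hk0⟩ : ∃ k0 : ℕ, k0 = ⌈(β + θ) * ℓ⌉₊ := ⟨_, rfl⟩
  have hk1 : (β + θ) * ℓ ≤ k0 := by rw [hk0]; exact Nat.le_ceil _
  have hk2 : (k0 : ℝ) ≤ (β + 2 * θ) * ℓ := by
    have : (k0 : ℝ) ≤ (β + θ) * ℓ + 1 := by
      rw [hk0]
      exact (Nat.ceil_lt_add_one (by positivity)).le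
    linarith
  obtain ⟨W, hW⟩ : ∃ W : ℝ, W = n * K * Δ := ⟨_, rfl⟩
  have hW0 : 0 < W := by rw [hW]; positivity
  obtain ⟨A, hA⟩ : ∃ A : ℝ, A = (γ - θ) * ℓ - k0 - K * Δ := ⟨_, rfl⟩
  have hexp : (n + 1) * K * (Δ : ℝ) = W + K * Δ := by rw [hW]; ring
  have hAW : 0 < A - W := by
    have h5 : 0 < (γ - β - 4 * θ) * ℓ := mul_pos (by linarith) hℓ
    rw [hA]
    linarith
  obtain ⟨Q, hQ⟩ : ∃ Q : ℕ, Q = ⌊A / W⌋₊ := ⟨_, rfl⟩
  have hQ1 : Q * W ≤ A := by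
    have h5 : (Q : ℝ) ≤ A / W := by rw [hQ]; exact Nat.floor_le (div_nonneg (by linarith) hW0.le)
    rwa [le_div_iff₀ hW0] at h5
  have hQ2 : A < (Q + 1) * W := by
    have h5 : A / W < Q + 1 := by rw [hQ]; exact Nat.lt_floor_add_one _
    rwa [div_lt_iff₀ hW0] at h5
  refine ⟨k0, Q, ?_, hk1, hk2, ?_, ?_⟩
  · by_contra h
    have : Q = 0 := by omega
    rw [this] at hQ2
    push_cast at hQ2
    linarith
  · have hend : ((k0 + n * Q * K * Δ : ℕ) : ℝ) = k0 + Q * W := by rw [hW]; push_cast; ring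
    rw [hend]
    linarith
  · have h5 : ((k0 + (n * Q * K + K) * Δ : ℕ) : ℝ) = k0 + Q * W + K * Δ := by rw [hW]; push_cast; ring
    rw [h5]
    linarith

theorem prob_num {c e e₂ h₀ : ℝ} {K n q : ℕ} (hc0 : 0 < c) (he0 : 0 < e) (hn : 1 ≤ n)
    (he₂ : e₂ = (c * e / 2) ^ 2 / (2 * (2 * K + 1) ^ 2))
    (hn2 : 4 * q * (2 * (K : ℝ) + 1) ^ 2 ≤ n * (c * e / 2) ^ 2)
    (hKe : (K + 1) * (8 * Real.exp (-((K * h₀) ^ 2 / 8))) ≤ c * e / 2) :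
    √(2 * q * n * (2 * (K : ℝ) + 1) ^ 2 + n ^ 2 * ((2 * K + 1) ^ 2 * e₂)) / (c * n) +
      (K + 1) * (8 * Real.exp (-((K * h₀) ^ 2 / 8))) / c ≤ e := by
  have hnp : (0 : ℝ) < n := by exact_mod_cast (by omega : 0 < n)
  have h5 : √(2 * q * n * (2 * (K : ℝ) + 1) ^ 2 + n ^ 2 * ((2 * K + 1) ^ 2 * e₂)) ≤ n * (c * e / 2) := by
    apply Real.sqrt_le_iff.2
    refine ⟨by positivity, ?_⟩
    have h6 : (2 * (K : ℝ) + 1) ^ 2 * e₂ = (c * e / 2) ^ 2 / 2 := by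
      rw [he₂]
      field_simp
    rw [h6]
    have h7 : 2 * q * n * (2 * (K : ℝ) + 1) ^ 2 = n / 2 * (4 * q * (2 * (K : ℝ) + 1) ^ 2) := by ring
    have h8 : (n : ℝ) / 2 * (4 * q * (2 * (K : ℝ) + 1) ^ 2) ≤ n / 2 * (n * (c * e / 2) ^ 2) :=
      mul_le_mul_of_nonneg_left hn2 (by positivity)
    rw [h7]
    linarith
  have h6 : √(2 * q * n * (2 * (K : ℝ) + 1) ^ 2 + n ^ 2 * ((2 * K + 1) ^ 2 * e₂)) / (c * n) ≤ e / 2 := by
    rw [div_le_iff₀ (by positivity)]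
    linarith
  have h7 : (K + 1) * (8 * Real.exp (-((K * h₀) ^ 2 / 8))) / c ≤ e / 2 := by
    rw [div_le_iff₀ hc0]
    linarith
  linarith

/-- comparison of the thresholds -/
theorem thr_num {t ℓ β γ e ε θ k0 k1 M₀ : ℝ} (ht : 0 < t) (hℓ : 0 ≤ ℓ) (hβ0 : 0 < β) (hγβ : 40 ≤ γ - β)
    (he0 : 0 < e) (heh : e ≤ 1 / 2) (heε : e ≤ ε) (hθ : θ = e ^ 2 / 8) (hγℓ : γ * ℓ ≤ (1 - e) * t)
    (hk0 : k0 ≤ (β + 2 * θ) * ℓ) (hk1 : (γ - 2 * θ) * ℓ ≤ k1)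
    (hM2 : √Real.pi / (10 * kap * e) ≤ M₀) (hMℓ : M₀ * √t ≤ ℓ) :
    (1 - ε) * (1 + 4 * kap / √Real.pi * (√(t - β * ℓ) - √(t - γ * ℓ))) ≤
      (1 - e / 8) * (4 * kap / √Real.pi * ((1 - e / 12) * (√(t - k0) - √(t - k1)))) := by
  have hkap := kap_pos
  have hpi : 0 < √Real.pi := Real.sqrt_pos.2 Real.pi_pos
  have hst : 0 < √t := Real.sqrt_pos.2 ht
  have hθ0 : 0 < θ := by rw [hθ]; positivity
  have hθ1 : θ ≤ 1 / 32 := by rw [hθ]; nlinarith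
  obtain ⟨aκ, haκ⟩ : ∃ a : ℝ, a = 4 * kap / √Real.pi := ⟨_, rfl⟩
  have haκ0 : 0 < aκ := by rw [haκ]; positivity
  obtain ⟨S, hS⟩ : ∃ S : ℝ, S = √(t - β * ℓ) - √(t - γ * ℓ) := ⟨_, rfl⟩
  obtain ⟨S', hS'⟩ : ∃ S : ℝ, S = √(t - k0) - √(t - k1) := ⟨_, rfl⟩
  rw [← haκ, ← hS, ← hS']
  have hSlow : 20 * (ℓ / √t) ≤ S := by
    have h5 := sq_gain (t := t) (a := β * ℓ) (b := γ * ℓ) ht (by positivity)
      (mul_le_mul_of_nonneg_right (by linarith) hℓ) (hγℓ.trans (by nlinarith))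
    have h6 : 20 * (ℓ / √t) ≤ (γ * ℓ - β * ℓ) / (2 * √t) := by
      have h7 : (γ * ℓ - β * ℓ) / (2 * √t) = (γ - β) / 2 * (ℓ / √t) := by ring
      rw [h7]
      exact mul_le_mul_of_nonneg_right (by linarith) (by positivity)
    rw [hS]
    linarith
  have het : (e * √t) ^ 2 ≤ e * t := by
    rw [mul_pow, Real.sq_sqrt ht.le]
    have : e ^ 2 ≤ e := by nlinarith
    exact mul_le_mul_of_nonneg_right this ht.le
  have hloss : 2 * θ * ℓ / (2 * (e * √t)) = e / 8 * (ℓ / √t) := by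
    rw [hθ]
    field_simp
  have hloss1 : √(t - β * ℓ) - √(t - k0) ≤ e / 8 * (ℓ / √t) := by
    have h5 := sq_loss (t := t) (a := β * ℓ) (x := 2 * θ * ℓ) (m := e * √t) (by positivity) (by positivity)
      (by
        have h6 : β * ℓ + 2 * θ * ℓ ≤ γ * ℓ := by
          calc β * ℓ + 2 * θ * ℓ = (β + 2 * θ) * ℓ := by ring
            _ ≤ γ * ℓ := mul_le_mul_of_nonneg_right (by linarith) hℓ
        linarith)
    rw [hloss] at h5
    have h6 : √(t - β * ℓ - 2 * θ * ℓ) ≤ √(t - k0) := Real.sqrt_le_sqrt (by linarith)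
    linarith
  have hloss2 : √(t - k1) - √(t - γ * ℓ) ≤ e / 8 * (ℓ / √t) := by
    have h5 := sq_loss (t := t) (a := (γ - 2 * θ) * ℓ) (x := 2 * θ * ℓ) (m := e * √t) (by positivity)
      (by positivity) (by linarith)
    rw [hloss] at h5
    have e1 : t - (γ - 2 * θ) * ℓ - 2 * θ * ℓ = t - γ * ℓ := by ring
    rw [e1] at h5
    have h6 : √(t - k1) ≤ √(t - (γ - 2 * θ) * ℓ) := Real.sqrt_le_sqrt (by linarith)
    linarith
  have hS1 : (1 - e / 80) * S ≤ S' := by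
    have h5 : e / 80 * (20 * (ℓ / √t)) ≤ e / 80 * S := mul_le_mul_of_nonneg_left hSlow (by positivity)
    rw [hS'] 
    have h6 : (1 - e / 80) * S = S - e / 80 * S := by ring
    rw [h6]
    have h7 : S = √(t - β * ℓ) - √(t - γ * ℓ) := hS
    linarith
  have hY : M₀ ≤ ℓ / √t := by
    rw [le_div_iff₀ hst]
    exact hMℓ
  have hS0 : 0 ≤ S := by
    have : 0 ≤ ℓ / √t := by positivity
    linarith
  have hy1 : 1 ≤ e / 8 * (aκ * S) := by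
    have h5 : √Real.pi / (10 * kap * e) ≤ ℓ / √t := hM2.trans hY
    have h6 : aκ * (20 * (√Real.pi / (10 * kap * e))) ≤ aκ * S :=
      mul_le_mul_of_nonneg_left (by linarith) haκ0.le
    have h7 : aκ * (20 * (√Real.pi / (10 * kap * e))) = 8 / e := by
      rw [haκ]
      field_simp
      norm_num
    rw [h7] at h6
    calc (1 : ℝ) = e / 8 * (8 / e) := by field_simp
      _ ≤ e / 8 * (aκ * S) := mul_le_mul_of_nonneg_left h6 (by positivity)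
  obtain ⟨y, hy⟩ : ∃ y : ℝ, y = aκ * S := ⟨_, rfl⟩
  rw [← hy] at hy1 ⊢
  have hy0 : 0 ≤ y := by rw [hy]; exact mul_nonneg haκ0.le hS0
  have h5 : (1 - ε) * (1 + y) ≤ (1 - e) * (1 + y) := mul_le_mul_of_nonneg_right (by linarith) (by linarith)
  have h6 : (1 - e) * (1 + y) ≤ (1 - e) * ((1 + e / 8) * y) :=
    mul_le_mul_of_nonneg_left (by linarith) (by linarith)
  have h7 : (1 - e) * ((1 + e / 8) * y) ≤ (1 - e / 8) * ((1 - e / 12) * (1 - e / 80)) * y := by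
    have h8 : (1 - e) * (1 + e / 8) ≤ (1 - e / 8) * ((1 - e / 12) * (1 - e / 80)) := by
      nlinarith [mul_pos he0 he0, mul_pos (mul_pos he0 he0) he0]
    calc (1 - e) * ((1 + e / 8) * y) = (1 - e) * (1 + e / 8) * y := by ring
      _ ≤ _ := mul_le_mul_of_nonneg_right h8 hy0
  have h10 : aκ * ((1 - e / 80) * S) ≤ aκ * S' := mul_le_mul_of_nonneg_left hS1 haκ0.le
  have h11 : (1 - e / 12) * (aκ * ((1 - e / 80) * S)) ≤ (1 - e / 12) * (aκ * S') :=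
    mul_le_mul_of_nonneg_left h10 (by linarith)
  have h12 : (1 - e / 8) * ((1 - e / 12) * (aκ * ((1 - e / 80) * S))) ≤
      (1 - e / 8) * ((1 - e / 12) * (aκ * S')) := mul_le_mul_of_nonneg_left h11 (by linarith)
  calc (1 - ε) * (1 + y) ≤ (1 - e) * (1 + y) := h5
    _ ≤ (1 - e) * ((1 + e / 8) * y) := h6
    _ ≤ (1 - e / 8) * ((1 - e / 12) * (1 - e / 80)) * y := h7
    _ = (1 - e / 8) * ((1 - e / 12) * (aκ * ((1 - e / 80) * S))) := by rw [hy]; ring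
    _ ≤ (1 - e / 8) * ((1 - e / 12) * (aκ * S')) := h12
    _ = (1 - e / 8) * (aκ * ((1 - e / 12) * S')) := by ring

/-- **BT7-LowP** -/
theorem lowP (h1 : S_NetE) (h2 : S_Adj) (h3 : S_Far) (h4 : S_CovL) : S_LowP := by
  classical
  intro γ hγ ε hε
  have hγ1 : 41.6 < γ := by linarith [hγ.1]
  have hl2 : 0 < Real.log 2 := Real.log_pos (by norm_num)
  have hl2' := Real.log_two_gt_d9
  have hkap := kap_pos
  have hpi : 0 < √Real.pi := Real.sqrt_pos.2 Real.pi_pos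
  obtain ⟨β, hβ⟩ : ∃ β : ℝ, β = 1 / Real.log 2 := ⟨_, rfl⟩
  have hβ0 : 0 < β := by rw [hβ]; positivity
  have hβ1 : β ≤ 29 / 20 := by
    rw [hβ, div_le_iff₀ hl2]
    linarith
  obtain ⟨e, he⟩ : ∃ e : ℝ, e = min ε (1 / 2) := ⟨_, rfl⟩
  have he0 : 0 < e := by rw [he]; exact lt_min hε (by norm_num)
  have heε : e ≤ ε := by rw [he]; exact min_le_left _ _
  have heh : e ≤ 1 / 2 := by rw [he]; exact min_le_right _ _
  obtain ⟨θ, hθ⟩ : ∃ θ : ℝ, θ = e ^ 2 / 8 := ⟨_, rfl⟩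
  have hθ0 : 0 < θ := by rw [hθ]; positivity
  have hθ1 : θ ≤ 1 / 32 := by
    rw [hθ]
    nlinarith
  obtain ⟨C, hC, L₀, hNet⟩ := h1 γ hγ (β + θ) (γ - θ) (by rw [← hβ]; linarith) (by linarith) (by linarith)
  obtain ⟨C₁, hFar⟩ := h3 C hC
  obtain ⟨h₀, hh₀⟩ : ∃ h₀ : ℝ, h₀ = e / 2 := ⟨_, rfl⟩
  have hh0 : 0 < h₀ := by rw [hh₀]; positivity
  obtain ⟨c, hc⟩ : ∃ c : ℝ, c = e / 32 := ⟨_, rfl⟩
  have hc0 : 0 < c := by rw [hc]; positivity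
  obtain ⟨K, hK1, hKh, hK4, hKe⟩ := exists_K hh0 (show 0 < c * e / 2 by positivity)
  have hKr : (1 : ℝ) ≤ K := by exact_mod_cast hK1
  have hKp : (0 : ℝ) < K := by linarith
  obtain ⟨t₁, hA1⟩ := h2 C e h₀ c K hC he0 hh0 hc0
  obtain ⟨t₂, hA2⟩ := h2 C e h₀ c (2 * K) hC he0 hh0 hc0
  obtain ⟨e₂, he₂⟩ : ∃ e₂ : ℝ, e₂ = (c * e / 2) ^ 2 / (2 * (2 * K + 1) ^ 2) := ⟨_, rfl⟩
  have he20 : 0 < e₂ := by rw [he₂]; positivity
  obtain ⟨ρ, D₀, hρ, hD₀, t₃, hCov⟩ := h4 C e h₀ e₂ (2 * K) hC he0 hh0 he20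
  obtain ⟨q, hq⟩ : ∃ q : ℕ, q = ⌈D₀⌉₊ + 2 := ⟨_, rfl⟩
  obtain ⟨n, hn⟩ : ∃ n : ℕ, n = ⌈4 * q * (2 * (K : ℝ) + 1) ^ 2 / (c * e / 2) ^ 2⌉₊ + 1 := ⟨_, rfl⟩
  have hn1 : 1 ≤ n := by omega
  have hnp : (0 : ℝ) < n := by exact_mod_cast (by omega : 0 < n)
  have hn2 : 4 * q * (2 * (K : ℝ) + 1) ^ 2 ≤ n * (c * e / 2) ^ 2 := by
    have : 4 * q * (2 * (K : ℝ) + 1) ^ 2 / (c * e / 2) ^ 2 ≤ n := by
      rw [hn]
      push_cast
      linarith only [Nat.le_ceil (4 * q * (2 * (K : ℝ) + 1) ^ 2 / (c * e / 2) ^ 2)]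
    rwa [div_le_iff₀ (by positivity)] at this
  have hprob := prob_num (h₀ := h₀) (q := q) hc0 he0 hn1 he₂ hn2 hKe
  obtain ⟨t₄, hlog⟩ := log_small (n * K * h₀) ρ hρ
  obtain ⟨M₀, hM₀⟩ : ∃ M : ℝ, M = max 1 (max (√Real.pi / (10 * kap * e))
    ((n + 1) * K * h₀ / (kap * θ))) := ⟨_, rfl⟩
  have hM1 : 1 ≤ M₀ := by rw [hM₀]; exact le_max_left _ _
  have hM2 : √Real.pi / (10 * kap * e) ≤ M₀ := by
    rw [hM₀]; exact (le_max_left _ _).trans (le_max_right _ _)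
  have hM3 : (n + 1) * K * h₀ / (kap * θ) ≤ M₀ := by
    rw [hM₀]; exact (le_max_right _ _).trans (le_max_right _ _)
  obtain ⟨Λ, hΛ⟩ : ∃ Λ : ℝ, Λ = max (Real.log L₀) (max (1 / θ)
    (max (Real.log (8 * (2 * C + 1) * C) / (θ * Real.log 2)) ((2 * |C₁| + 2) / h₀))) := ⟨_, rfl⟩
  have L1 : Real.log L₀ ≤ Λ := by rw [hΛ]; exact le_max_left _ _
  have L2 : 1 / θ ≤ Λ := by rw [hΛ]; exact (le_max_left _ _).trans (le_max_right _ _)
  have L3 : Real.log (8 * (2 * C + 1) * C) / (θ * Real.log 2) ≤ Λ := by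
    rw [hΛ]; exact (le_max_left _ _).trans ((le_max_right _ _).trans (le_max_right _ _))
  have L4 : (2 * |C₁| + 2) / h₀ ≤ Λ := by
    rw [hΛ]; exact (le_max_right _ _).trans ((le_max_right _ _).trans (le_max_right _ _))
  obtain ⟨N₁, hN₁⟩ := exists_nat_ge Λ
  refine ⟨M₀, by linarith only [hM1], max (N₁ ^ 2) (max t₁ (max t₂ (max t₃ (max t₄ 3)))),
    fun t ht L hL hMℓ hγℓ => ?_⟩
  simp only [max_le_iff] at ht
  obtain ⟨g0, g1, g2, g3, g4, g5⟩ := ht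
  clear hM₀ hΛ hn
  have ht1 : 1 ≤ t := by omega
  have htr3 : (3 : ℝ) ≤ t := by exact_mod_cast g5
  have ht0 : (0 : ℝ) < t := by linarith only [htr3]
  have hst : 0 < √(t : ℝ) := Real.sqrt_pos.2 ht0
  have hss : √(t : ℝ) * √t = t := Real.mul_self_sqrt ht0.le
  have hNt : (N₁ : ℝ) ≤ √t := by
    apply Real.le_sqrt_of_sq_le
    exact_mod_cast g0
  have hΛt : Λ ≤ √t := hN₁.trans hNt
  obtain ⟨ℓ, hℓ⟩ : ∃ ℓ : ℝ, ℓ = Real.log L := ⟨_, rfl⟩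
  rw [← hℓ] at hMℓ hγℓ
  have hℓ0 : 0 ≤ ℓ := by rw [hℓ]; exact Real.log_nonneg (by exact_mod_cast hL)
  have hstℓ : √(t : ℝ) ≤ ℓ := by
    calc √(t : ℝ) = 1 * √(t : ℝ) := (one_mul _).symm
      _ ≤ M₀ * √t := mul_le_mul_of_nonneg_right hM1 hst.le
      _ ≤ ℓ := hMℓ
  have hℓp : 0 < ℓ := hst.trans_le hstℓ
  have hℓΛ : Λ ≤ ℓ := hΛt.trans hstℓ
  have hLp : (0 : ℝ) < L := by exact_mod_cast (by omega : 0 < L)
  have hLL : L₀ ≤ L := le_of_log' hL (by rw [← hℓ]; exact L1.trans hℓΛ)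
  have hθℓ : 1 ≤ θ * ℓ := by
    have := L2.trans hℓΛ
    rw [div_le_iff₀ hθ0] at this
    linarith only [this]
  have hγℓ' : γ * ℓ ≤ (1 - e) * t :=
    hγℓ.trans (mul_le_mul_of_nonneg_right (by linarith only [heε]) ht0.le)
  have hℓt : ℓ ≤ t := by
    have : 1 * ℓ ≤ γ * ℓ := mul_le_mul_of_nonneg_right (by linarith only [hγ1]) hℓ0
    have h8 : (1 - e) * t ≤ 1 * t := mul_le_mul_of_nonneg_right (by linarith only [he0]) ht0.le
    linarith only [this, h8, hγℓ']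
  have hℓt' : Real.log L ≤ t := by rw [← hℓ]; exact hℓt
  have hlogt : 0 < Real.log t := Real.log_pos (by linarith only [htr3])
  -- the step
  have hx0 : 2 * |C₁| + 2 ≤ h₀ * √t := by
    have := L4.trans hΛt
    rw [div_le_iff₀ hh0] at this
    linarith only [this]
  obtain ⟨Δ, hΔp, hΔ1, hΔ2, hΔabs, hΔ3⟩ := exists_step hK1 hx0
  have hstep : (n + 1) * K * (Δ : ℝ) ≤ θ * ℓ := by
    have h5 : (n + 1) * K * h₀ ≤ M₀ * (kap * θ) := by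
      rwa [div_le_iff₀ (by positivity)] at hM3
    have h6 : (n + 1) * K * h₀ * √t ≤ M₀ * (kap * θ) * √t := mul_le_mul_of_nonneg_right h5 hst.le
    have h7 : M₀ * (kap * θ) * √t ≤ (kap * θ) * ℓ := by
      calc M₀ * (kap * θ) * √t = (kap * θ) * (M₀ * √t) := by ring
        _ ≤ (kap * θ) * ℓ := mul_le_mul_of_nonneg_left hMℓ (by positivity)
    have h8 : (n + 1) * K * (kap * (Δ : ℝ)) ≤ (n + 1) * K * (h₀ * √t) :=
      mul_le_mul_of_nonneg_left hΔ1 (by positivity)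
    have h9 : kap * ((n + 1) * K * (Δ : ℝ)) ≤ kap * (θ * ℓ) := by linarith only [h6, h7, h8]
    exact le_of_mul_le_mul_left h9 hkap
  obtain ⟨k0, Q, hQp, hk1, hk2, hend2, hlast⟩ := exists_Q (β := β) (γ := γ) hβ0 hn1 hK1 hΔp hℓp hθ0 hθℓ
    (by linarith only [hθ1, hγ1, hβ1]) hstep
  have hlast2 : (γ - θ) * ℓ ≤ (1 - e) * t := by
    have : 0 ≤ θ * ℓ := by positivity
    linarith only [this, hγℓ']
  -- the main bound
  have hbig : 8 * (2 * C + 1) * (C * L) ≤ 2 ^ k0 := by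
    have hCp : 0 < C := by linarith only [hC]
    rw [← Real.log_le_log_iff (by positivity) (by positivity), Real.log_pow,
      show 8 * (2 * C + 1) * (C * (L : ℝ)) = (8 * (2 * C + 1) * C) * L by ring,
      Real.log_mul (by positivity) hLp.ne', ← hℓ]
    have h5 := L3.trans hℓΛ
    rw [div_le_iff₀ (by positivity)] at h5
    have h6 : (β + θ) * ℓ * Real.log 2 ≤ k0 * Real.log 2 := mul_le_mul_of_nonneg_right hk1 hl2.le
    have h7 : (β + θ) * ℓ * Real.log 2 = ℓ + ℓ * (θ * Real.log 2) := by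
      rw [hβ]
      field_simp
    linarith only [h5, h6, h7]
  have hd1 : D₀ * √t ≤ ((q : ℝ) - 2) * K * (kap * Δ) := by
    have h5 : (q : ℝ) - 2 = ⌈D₀⌉₊ := by rw [hq]; push_cast; ring
    rw [h5]
    have h6 : D₀ ≤ ⌈D₀⌉₊ := Nat.le_ceil _
    have h7 : √t ≤ K * (kap * Δ) := by
      have h8 : (K : ℝ) * (h₀ * √t - 1 / 2) ≤ K * (kap * Δ) := mul_le_mul_of_nonneg_left hΔ2 hKp.le
      have h9 : 2 * √t ≤ K * h₀ * √t := mul_le_mul_of_nonneg_right hKh hst.le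
      have h10 : (K : ℝ) * 1 ≤ K * (h₀ * √t) :=
        mul_le_mul_of_nonneg_left (by linarith only [hx0, abs_nonneg C₁]) hKp.le
      linarith only [h8, h9, h10]
    calc D₀ * √t ≤ (⌈D₀⌉₊ : ℝ) * (K * (kap * Δ)) := mul_le_mul h6 h7 hst.le (by positivity)
      _ = (⌈D₀⌉₊ : ℝ) * K * (kap * Δ) := by ring
  have hd2 : (n : ℝ) * K * (kap * Δ) ≤ ρ * (t / Real.log t) := by
    have h5 := hlog t g4
    have h6 : (n : ℝ) * K * (kap * Δ) ≤ n * K * (h₀ * √t) := mul_le_mul_of_nonneg_left hΔ1 (by positivity)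
    refine h6.trans ?_
    rw [← mul_div_assoc, le_div_iff₀ hlogt]
    calc (n : ℝ) * K * (h₀ * √t) * Real.log t = (n * K * h₀ * Real.log t) * √t := by ring
      _ ≤ (ρ * √t) * √t := mul_le_mul_of_nonneg_right h5 hst.le
      _ = ρ * t := by rw [mul_assoc, hss]
  have hNet' : ∀ k : ℕ, k0 ≤ k → k ≤ k0 + (n * Q * K + K) * Δ → ∃ j, LN C L k j := by
    intro k hka hkb
    have hka' : (k0 : ℝ) ≤ k := by exact_mod_cast hka
    have hkb' : (k : ℝ) ≤ ((k0 + (n * Q * K + K) * Δ : ℕ) : ℝ) := by exact_mod_cast hkb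
    exact hNet L hLL k (by rw [← hℓ]; exact hk1.trans hka') (by rw [← hℓ]; exact hkb'.trans hlast)
  have hcore := core (t := t) (L := L) (K := K) (Δ := Δ) (k0 := k0) (n := n) (q := q) (Q := Q) (C := C)
    (C₁ := C₁) (ε₀ := e) (h₀ := h₀) (e₁ := c) (e₂ := e₂) (c := c) (ρ := ρ) (D₀ := D₀) ht1 hC hL he0 hh0
    (by rw [hh₀]; nlinarith only [he0, heh]) hKh hK4 hc0 hc0.le he20.le
    (by rw [hc]; linarith only [heh]) hn1 hQp hΔabs hΔ1 hΔ3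
    (hlast.trans hlast2) hNet' hbig
    (fun k hk hk' j hj => hA1 t g1 L hL hℓt' k hk hk' j hj)
    (fun k hk hk' j hj => hA2 t g2 L hL hℓt' k hk hk' j hj)
    (fun L t k k' j j' D => hFar L t k k' j j' D)
    (fun k k' hk hk' hd1 hd2 hd3 j j' hj hj' F F' => hCov t g3 L hL hℓt' k k' hk hk' hd1 hd2 hd3 j j' hj hj' F F')
    (by omega) hd1 hd2
  have hthr := thr_num (t := t) (ℓ := ℓ) (β := β) (γ := γ) (e := e) (ε := ε) (θ := θ) (k0 := k0)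
    (k1 := ((k0 + n * Q * K * Δ : ℕ) : ℝ)) (M₀ := M₀) ht0 hℓ0 hβ0 (by linarith only [hγ1, hβ1]) he0 heh heε hθ
    hγℓ' hk2 hend2 hM2 hMℓ
  refine le_trans (EE_mono t fun x => ?_) (hcore.trans (hprob.trans heε))
  apply Set.indicator_le_indicator_of_subset
  swap
  · exact fun _ => zero_le_one
  intro y hy
  have hy' : ((LSg L t y).card : ℝ) < (1 - ε) * MV γ L t := hy
  refine hy'.trans_le (le_trans (le_of_eq ?_) (hthr.trans (le_of_eq ?_)))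
  · unfold MV
    rw [hβ, ← hℓ, show 1 / Real.log 2 * ℓ = ℓ / Real.log 2 by ring]
  · have e1 : h₀ ^ 2 / (3 * e) = e / 12 := by
      rw [hh₀]
      field_simp
      norm_num
    have e2 : 2 * c + 2 * c = e / 8 := by rw [hc]; ring
    rw [e1, e2]

end Pool.Agent.Q96.BT
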