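import Pool.Agent.Q74.BT.Stm6
import Pool.Agent.Q150.BT.Pot
import Pool.Agent.Q190.BT.Tools

/-!
# Project BT, part 6: the potential of the trajectories contracted in a window of times
-/

set_option autoImplicit false

namespace Pool.Agent.Q96.BT

open Finset
open Pool.Agent.Q158.Pair (T)
open Pool.Agent.Q74.AR (oc oc_le oc_per)
open Pool.Agent.Q74.KP (EE EE_mono EE_add EE_mul EE_const EE_sum)
open Pool.Agent.Q74.BL (nx ww nx_add nx_lev EE_split)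
open Pool.Agent.Q150.BT
open Pool.Agent.Q38.BT (wv wv_step wv_nonneg)
open Pool.Agent.Q190.BT (wv_tau oc_mono)
open Pool.Agent.Q74.BT

theorem oc_shift {k s : ℕ} (h : k ≤ s) (y x' : ℤ) : oc k (y + 2 ^ s * x') = oc k y := by
  obtain ⟨d, rfl⟩ := Nat.exists_eq_add_of_le h
  rw [show y + 2 ^ (k + d) * x' = y + 2 ^ k * (2 ^ d * x') by ring, oc_per]

theorem ct_shift {L k s : ℕ} (h : k ≤ s) (x x' : ℤ) (j : ℕ) :
    ct L k (2 ^ s * x' + x + j) ↔ ct L k (x + j) := by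
  unfold ct
  rw [show 2 ^ s * x' + x + (j : ℤ) = (x + j) + 2 ^ s * x' by ring, oc_shift h]

/-- the trajectories first contracted at the time `k` -/
noncomputable def Fs (L k : ℕ) (x : ℤ) : Finset ℕ := by
  classical
  exact (range L).filter (fun j : ℕ => ct L k (x + j) ∧ ∀ i < k, ¬ ct L i (x + j))

/-- their forms -/
noncomputable def Ff (L k : ℕ) (x : ℤ) : Finset (ℕ × ℤ) :=
  (Fs L k x).image (fun j : ℕ => nx k x (0, (j : ℤ)))

theorem mem_Fs {L k : ℕ} {x : ℤ} {j : ℕ} : j ∈ Fs L k x ↔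
    j < L ∧ ct L k (x + j) ∧ ∀ i < k, ¬ ct L i (x + j) := by
  classical
  unfold Fs
  rw [mem_filter, mem_range]

theorem mem_Ctr {u₁ u₂ L : ℕ} {x : ℤ} {j : ℕ} : j ∈ Ctr u₁ u₂ L x ↔
    j < L ∧ ∃ k : ℕ, u₁ < k ∧ k ≤ u₂ ∧ ct L k (x + j) ∧ ∀ i < k, ¬ ct L i (x + j) := by
  classical
  unfold Ctr
  rw [mem_filter, mem_range]

theorem nx_form (k : ℕ) (x : ℤ) (j : ℕ) :
    nx k x (0, (j : ℤ)) = (oc k (x + j), T^[k] (x + j)) := by
  unfold nx
  simp only [pow_zero, one_mul, zero_add]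

theorem ww_form (k : ℕ) (x : ℤ) (j : ℕ) :
    ww ((x : ℝ) / 2 ^ k) (nx k x (0, (j : ℤ))) = wv x (x + j) k := by
  rw [nx_form]
  unfold ww wv
  simp only
  ring

/-- trajectories of the window at the time `s + 1` -/
theorem VW_succ (u₁ u₂ L s : ℕ) (x x' : ℤ) :
    VW u₁ (min u₂ (s + 1)) L (s + 1) (2 ^ s * x' + x) ⊆
      (VW u₁ (min u₂ s) L s x).image (nx 1 x') ∪
        (if s < u₂ then Ff L (s + 1) (2 ^ s * x' + x) else ∅) := by
  classical
  intro z hz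
  unfold VW at hz
  obtain ⟨j, hj, rfl⟩ := mem_image.1 hz
  obtain ⟨hjL, k, h1, h2, h3, h4⟩ := mem_Ctr.1 hj
  rw [mem_union]
  by_cases hk : k ≤ s
  · left
    rw [mem_image]
    refine ⟨nx s x (0, (j : ℤ)), ?_, (nx_add s 1 x x' _).symm⟩
    unfold VW
    rw [mem_image]
    refine ⟨j, mem_Ctr.2 ⟨hjL, k, h1, ?_, (ct_shift hk x x' j).1 h3, fun i hi hc =>
      h4 i hi ((ct_shift (hi.le.trans hk) x x' j).2 hc)⟩, rfl⟩
    exact le_min (h2.trans (min_le_left _ _)) hk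
  · right
    have hk2 : k = s + 1 := by
      have := h2.trans (min_le_right _ _)
      omega
    have hsu : s < u₂ := by
      have := h2.trans (min_le_left _ _)
      omega
    rw [if_pos hsu]
    unfold Ff
    rw [mem_image]
    subst hk2
    exact ⟨j, mem_Fs.2 ⟨hjL, h3, h4⟩, rfl⟩

theorem VW_lev (u₁ u₂ L s : ℕ) (x : ℤ) : ∀ z ∈ VW u₁ u₂ L s x, z.1 ≤ s := by
  intro z hz
  unfold VW at hz
  obtain ⟨j, -, rfl⟩ := mem_image.1 hz
  rw [nx_form]
  exact oc_le s _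

/-- real form of the contraction -/
theorem ct_real {L k : ℕ} {y : ℤ} : ct L k y ↔ (3 : ℝ) ^ oc k y * L ≤ 2 ^ k := by
  unfold ct
  exact_mod_cast Iff.rfl

/-- the forms of `Ff` have one level -/
theorem Ff_level {L k : ℕ} {x : ℤ} {j j' : ℕ} (hk : 1 ≤ k) (hj : j ∈ Fs L k x)
    (hj' : j' ∈ Fs L k x) : oc k (x + (j : ℤ)) ≤ oc k (x + (j' : ℤ)) := by
  by_contra hc
  push Not at hc
  obtain ⟨-, h1, -⟩ := mem_Fs.1 hj
  obtain ⟨-, -, h2⟩ := mem_Fs.1 hj'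
  obtain ⟨m, rfl⟩ : ∃ m, k = m + 1 := ⟨k - 1, by omega⟩
  have h3 := h2 m (Nat.lt_succ_self m)
  unfold ct at h1 h3
  push Not at h3
  have h4 : 3 ^ oc m (x + (j' : ℤ)) * L ≤ 3 ^ oc (m + 1) (x + (j' : ℤ)) * L :=
    Nat.mul_le_mul_right _ (Nat.pow_le_pow_right (by norm_num) (oc_mono (Nat.le_succ m) _))
  have h5 : 3 ^ (oc (m + 1) (x + (j' : ℤ)) + 1) * L ≤ 3 ^ oc (m + 1) (x + (j : ℤ)) * L :=
    Nat.mul_le_mul_right _ (Nat.pow_le_pow_right (by norm_num) hc)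
  have h6 : 3 ^ (oc (m + 1) (x + (j' : ℤ)) + 1) * L = 3 * (3 ^ oc (m + 1) (x + (j' : ℤ)) * L) := by
    ring
  rw [h6] at h5
  rw [pow_succ] at h1
  omega

theorem Ff_wv {L k : ℕ} {x : ℤ} {j : ℕ} (hj : j ∈ Fs L k x) :
    0 ≤ wv x (x + j) k ∧ wv x (x + j) k ≤ k + 1 := by
  obtain ⟨hjL, h1, h2⟩ := mem_Fs.1 hj
  have hL0 : (0 : ℝ) < L := by exact_mod_cast (lt_of_le_of_lt (Nat.zero_le j) hjL)
  refine ⟨wv_nonneg x j k, ?_⟩
  have hk2 : ∀ i < k, (2 : ℝ) ^ i < 3 ^ oc i (x + j) * L := by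
    intro i hi
    have := h2 i hi
    rw [ct_real] at this
    push Not at this
    exact this
  have h6 := wv_tau x j k L hL0 hk2
  have h7 : (3 : ℝ) ^ oc k (x + j) / 2 ^ k ≤ 1 / L := by
    rw [div_le_div_iff₀ (by positivity) hL0]
    have := ct_real.1 h1
    linarith
  have h8 : (j : ℝ) ≤ L := by exact_mod_cast hjL.le
  have h9 : (3 : ℝ) ^ oc k (x + j) / 2 ^ k * (j + L * k / 3) ≤ 1 / L * (L + L * k / 3) := by
    gcongr
  have h10 : 1 / (L : ℝ) * (L + L * k / 3) = 1 + k / 3 := by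
    field_simp
  have h12 : (0 : ℝ) ≤ k := Nat.cast_nonneg k
  linarith

theorem Ff_card (L k : ℕ) (x : ℤ) (hk : 1 ≤ k) : ((Ff L k x).card : ℝ) ≤ k + 2 := by
  classical
  rcases (Fs L k x).eq_empty_or_nonempty with he | ⟨j₀, hj₀⟩
  · unfold Ff
    rw [he, image_empty, card_empty]
    push_cast
    positivity
  obtain ⟨a, ha⟩ : ∃ a, a = oc k (x + (j₀ : ℤ)) := ⟨_, rfl⟩
  obtain ⟨c, hc⟩ : ∃ c : ℝ, c = 3 ^ a * ((x : ℝ) / 2 ^ k) := ⟨_, rfl⟩
  have hsub : Ff L k x ⊆ (Icc ⌈c⌉ ⌊c + (k + 1)⌋).image (fun b => (a, b)) := by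
    intro z hz
    unfold Ff at hz
    obtain ⟨j, hj, rfl⟩ := mem_image.1 hz
    have h1 : oc k (x + (j : ℤ)) = a := by
      rw [ha]
      exact le_antisymm (Ff_level hk hj hj₀) (Ff_level hk hj₀ hj)
    have h2 := Ff_wv hj
    unfold wv at h2
    rw [h1] at h2
    have h3 : (3 : ℝ) ^ a * x / 2 ^ k = c := by rw [hc]; ring
    rw [h3] at h2
    rw [nx_form, mem_image]
    refine ⟨T^[k] (x + j), ?_, by rw [h1]⟩
    rw [mem_Icc]
    constructor
    · rw [Int.ceil_le]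
      linarith
    · rw [Int.le_floor]
      linarith
  have h1 := (card_le_card hsub).trans card_image_le
  rw [Int.card_Icc] at h1
  have h2 : ⌊c + ((k : ℝ) + 1)⌋ + 1 - ⌈c⌉ ≤ ((k + 2 : ℕ) : ℤ) := by
    have h3 := Int.floor_le (c + ((k : ℝ) + 1))
    have h4 := Int.le_ceil c
    have h5 : ((⌊c + ((k : ℝ) + 1)⌋ + 1 - ⌈c⌉ : ℤ) : ℝ) ≤ (((k + 2 : ℕ) : ℤ) : ℝ) := by
      push_cast
      linarith
    exact_mod_cast h5
  have h3 : (⌊c + ((k : ℝ) + 1)⌋ + 1 - ⌈c⌉).toNat ≤ k + 2 := by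
    have := Int.toNat_le_toNat h2
    rwa [Int.toNat_natCast] at this
  have h4 := h1.trans h3
  exact_mod_cast h4

theorem QQ_Ff {η : ℝ} (_hη : 0 < η) (hη1 : η < 1) (L k : ℕ) (x : ℤ) (hk : 1 ≤ k) :
    QQ η (Ff L k x) (x / 2 ^ k) ≤ (k + 2) ^ 2 := by
  unfold QQ
  have h1 : ∀ z ∈ Ff L k x, (1 + |ww ((x : ℝ) / 2 ^ k) z|) ^ η ≤ (k : ℝ) + 2 := by
    intro z hz
    unfold Ff at hz
    obtain ⟨j, hj, rfl⟩ := mem_image.1 hz
    rw [ww_form]
    obtain ⟨h2, h3⟩ := Ff_wv hj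
    rw [abs_of_nonneg h2]
    calc (1 + wv x (x + j) k) ^ η ≤ (1 + wv x (x + j) k) ^ (1 : ℝ) :=
          Real.rpow_le_rpow_of_exponent_le (by linarith) hη1.le
      _ = 1 + wv x (x + j) k := Real.rpow_one _
      _ ≤ _ := by linarith
  refine (sum_le_card_nsmul _ _ _ h1).trans ?_
  rw [nsmul_eq_mul, sq]
  exact mul_le_mul_of_nonneg_right (Ff_card L k x hk) (by positivity)

theorem QQ_mono {η : ℝ} {V V' : Finset (ℕ × ℤ)} (h : V ⊆ V') (θ : ℝ) : QQ η V θ ≤ QQ η V' θ := by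
  unfold QQ
  exact sum_le_sum_of_subset_of_nonneg h fun z _ _ => by positivity

theorem QQ_union {η : ℝ} (V V' : Finset (ℕ × ℤ)) (θ : ℝ) :
    QQ η (V ∪ V') θ ≤ QQ η V θ + QQ η V' θ := by
  classical
  unfold QQ
  have h := sum_union_inter (s₁ := V) (s₂ := V') (f := fun z => (1 + |ww θ z|) ^ η)
  have h2 : 0 ≤ ∑ z ∈ V ∩ V', (1 + |ww θ z|) ^ η := sum_nonneg fun z _ => by positivity
  linarith

theorem QQ_empty (η θ : ℝ) : QQ η ∅ θ = 0 := by
  unfold QQ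
  rw [sum_empty]

/-- one step of the mean potential -/
theorem EW_step {η q : ℝ} (hη : 0 < η) (hη1 : η < 1) {X : ℕ}
    (hA : ∀ w, Pool.Agent.Q74.BL.Au (gX η X) 1 w ≤ q * gg η w) (u₁ u₂ L s : ℕ) :
    EE (s + 1) (fun x => QQ η (VW u₁ (min u₂ (s + 1)) L (s + 1) x) (x / 2 ^ (s + 1))) ≤
      (s + 2) * ((2 * X + 1) * gg η X) +
        q * EE s (fun x => QQ η (VW u₁ (min u₂ s) L s x) (x / 2 ^ s)) +
        (if s < u₂ then ((s : ℝ) + 3) ^ 2 else 0) := by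
  rw [EE_split]
  have h1 : ∀ x : ℤ, EE 1 (fun x' => QQ η (VW u₁ (min u₂ (s + 1)) L (s + 1) (2 ^ s * x' + x))
      (((2 ^ s * x' + x : ℤ) : ℝ) / 2 ^ (s + 1))) ≤
      ((s : ℝ) + 2) * ((2 * X + 1) * gg η X) + (if s < u₂ then ((s : ℝ) + 3) ^ 2 else 0) +
        q * QQ η (VW u₁ (min u₂ s) L s x) (x / 2 ^ s) := by
    intro x
    have h2 := QQ_step hη hA (VW_lev u₁ (min u₂ s) L s x) ((x : ℝ) / 2 ^ s)
    have h3 : ∀ x' : ℤ, QQ η (VW u₁ (min u₂ (s + 1)) L (s + 1) (2 ^ s * x' + x))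
        (((2 ^ s * x' + x : ℤ) : ℝ) / 2 ^ (s + 1)) ≤
        QQ η ((VW u₁ (min u₂ s) L s x).image (nx 1 x')) (((x : ℝ) / 2 ^ s + x') / 2 ^ 1) +
          (if s < u₂ then ((s : ℝ) + 3) ^ 2 else 0) := by
      intro x'
      refine (QQ_mono (VW_succ u₁ u₂ L s x x') _).trans ?_
      refine (QQ_union _ _ _).trans ?_
      have e1 : ((2 ^ s * x' + x : ℤ) : ℝ) / 2 ^ (s + 1) = ((x : ℝ) / 2 ^ s + x') / 2 ^ 1 := by
        rw [pow_succ]
        push_cast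
        field_simp
        ring
      rw [← e1]
      refine add_le_add le_rfl ?_
      split_ifs with hs
      · have := QQ_Ff hη hη1 L (s + 1) (2 ^ s * x' + x) (by omega)
        push_cast at this ⊢
        linarith
      · rw [QQ_empty]
    refine (EE_mono 1 h3).trans ?_
    rw [EE_add, EE_const]
    linarith
  refine (EE_mono s h1).trans ?_
  rw [EE_add, EE_const, EE_mul]
  linarith

theorem potW : S_PotW := by
  intro η q hη hη1 hq hq1
  obtain ⟨X, hX⟩ := trunc hη hη1 hq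
  have hq0 : 0 < q := (la_pos η).trans hq
  have h1q : 0 < 1 - q := by linarith
  obtain ⟨c, hc⟩ : ∃ c : ℝ, c = (2 * X + 1) * gg η X := ⟨_, rfl⟩
  have hc0 : 0 < c := by rw [hc]; exact mul_pos (by positivity) (gg_pos η X)
  obtain ⟨K, hK⟩ : ∃ K : ℝ, K = (c + 5) / (1 - q) := ⟨_, rfl⟩
  have hK0 : 0 < K := by rw [hK]; positivity
  have hKc : K * (1 - q) = c + 5 := by rw [hK]; field_simp
  refine ⟨K, hK0, fun L u₁ u₂ s _ _ hs => ?_⟩
  have hstep := fun s => EW_step (q := q) hη hη1 hX u₁ u₂ L s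
  rw [← hc] at hstep
  have hA : ∀ s : ℕ, s ≤ u₂ →
      EE s (fun x => QQ η (VW u₁ (min u₂ s) L s x) (x / 2 ^ s)) ≤ K * (1 + s) ^ 2 := by
    intro s
    induction s with
    | zero =>
      intro _
      rw [EE_zero]
      have h0 : VW u₁ (min u₂ 0) L 0 0 = ∅ := by
        unfold VW
        have : Ctr u₁ (min u₂ 0) L 0 = ∅ := by
          rw [eq_empty_iff_forall_notMem]
          intro j hj
          obtain ⟨-, k, h1, h2, -⟩ := mem_Ctr.1 hj
          have := h2.trans (min_le_right _ _)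
          omega
        rw [this, image_empty]
      rw [h0, QQ_empty]
      positivity
    | succ s ih =>
      intro hsu
      have h1 := hstep s
      rw [if_pos (by omega)] at h1
      have h2 := mul_le_mul_of_nonneg_left (ih (by omega)) hq0.le
      have hs0 : (0 : ℝ) ≤ s := Nat.cast_nonneg s
      have h3 : c * (s + 2) + ((s : ℝ) + 3) ^ 2 ≤ K * (1 - q) * (s + 2) ^ 2 := by
        rw [hKc]
        nlinarith
      push_cast at h1 h2 ⊢
      nlinarith [mul_pos hK0 hq0]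
  have hB : ∀ d : ℕ,
      EE (u₂ + d) (fun x => QQ η (VW u₁ (min u₂ (u₂ + d)) L (u₂ + d) x) (x / 2 ^ (u₂ + d))) ≤
        K * (1 + (u₂ + d)) + K * (q ^ d * (1 + u₂) ^ 2) := by
    intro d
    induction d with
    | zero =>
      have h1 := hA u₂ le_rfl
      simp only [pow_zero, one_mul, Nat.cast_zero, add_zero]
      have : 0 ≤ K * (1 + (u₂ : ℝ)) := by positivity
      linarith
    | succ d ih =>
      have h1 := hstep (u₂ + d)
      rw [if_neg (by omega)] at h1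
      have h2 := mul_le_mul_of_nonneg_left ih hq0.le
      have hu0 : (0 : ℝ) ≤ u₂ := Nat.cast_nonneg u₂
      have hd0 : (0 : ℝ) ≤ d := Nat.cast_nonneg d
      have h3 : ((u₂ : ℝ) + d + 2) * c ≤ K * (1 - q) * (u₂ + d + 2) := by
        rw [hKc]
        nlinarith
      rw [pow_succ]
      have e : u₂ + (d + 1) = u₂ + d + 1 := by ring
      rw [e]
      push_cast at h1 h2 ⊢
      nlinarith [mul_pos hK0 hq0]
  obtain ⟨d, rfl⟩ := Nat.exists_eq_add_of_le hs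
  have h1 := hB d
  rw [min_eq_left (Nat.le_add_right _ _)] at h1
  rw [Nat.add_sub_cancel_left]
  push_cast at h1 ⊢
  linarith

end Pool.Agent.Q96.BT
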