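import Pool.Agent.Q74.BT.Stm6
import Pool.Agent.Q261.BT.MeanUp

/-!
# Project BT, part 6, job UpS: the upper bound for `M₀ √t ≤ log L ≤ λ₀ t`

Follows the proof of `Pool.Agent.Q261.BT.meanUp`.
-/

set_option autoImplicit false
set_option linter.unusedVariables false

namespace Pool.Agent.Q96.BT

open Finset Pool.Agent.Q74.BT Pool.Agent.Q195.BT
open Pool.Agent.Q261.BT (offsets' card_far card_split levels')
open Pool.Agent.Q158.Pair (T)
open Pool.Agent.Q74.AR (oc oc_per oc_le)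
open Pool.Agent.Q74.KP (EE Erf Pe EE_mono EE_add EE_mul EE_const EE_nonneg)
open Pool.Agent.Q74.BL (nx ww nx_add nx_zero EE_split)
open Pool.Agent.H395R2.G3 (rr FF)
open scoped Classical

/-- the segment, in units of `log L` -/
theorem seg1 {g γ e ℓ s b D : ℝ} (hg0 : 1 / 2 ≤ g) (hg1 : g ≤ 1) (hγ : 0 < γ)
    (hγ1 : γ ≤ 42) (he : 0 < e) (he1 : e ≤ 1 / 2) (hℓ : 1 ≤ e * ℓ)
    (hs : s ≤ (γ + e) * ℓ + 1) (hD : D = γ * (g - 1 / 2) + b) :
    (g + e) * s - s / 2 + (b + e) * ℓ + 2 * (e * ℓ) ≤ (D + 50 * e) * ℓ := by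
  have hℓ0 : 0 < ℓ := by
    by_contra h
    push Not at h
    nlinarith
  have a1 : (g + e - 1 / 2) * s ≤ (g + e - 1 / 2) * ((γ + e) * ℓ + 1) :=
    mul_le_mul_of_nonneg_left hs (by linarith)
  have a2 : (g + e - 1 / 2) * ((γ + e) * ℓ + 1) ≤
      γ * (g - 1 / 2) * ℓ + 45 * (e * ℓ) := by
    have b1 : (g - 1 / 2) * (e * ℓ) ≤ 1 / 2 * (e * ℓ) :=
      mul_le_mul_of_nonneg_right (by linarith) (by positivity)
    have b2 : γ * (e * ℓ) ≤ 42 * (e * ℓ) := mul_le_mul_of_nonneg_right hγ1 (by positivity)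
    have b3 : e * (e * ℓ) ≤ 1 / 2 * (e * ℓ) := mul_le_mul_of_nonneg_right he1 (by positivity)
    nlinarith
  rw [hD]
  nlinarith

theorem sqrt_ratio {e t r : ℝ} (he : 0 < e) (he1 : e ≤ 1 / 2) (ht : 0 < t)
    (hr : (1 - e) * t ≤ r) : 1 / √r ≤ (1 + e) / √t := by
  have hr0 : 0 < r := lt_of_lt_of_le (mul_pos (by linarith) ht) hr
  have hst : 0 < √t := Real.sqrt_pos.2 ht
  have hsr : 0 < √r := Real.sqrt_pos.2 hr0
  have h2 : √t ≤ (1 + e) * √r := by
    apply Real.sqrt_le_iff.2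
    refine ⟨by positivity, ?_⟩
    rw [mul_pow, Real.sq_sqrt hr0.le]
    have a1 : (1 + e) ^ 2 * ((1 - e) * t) ≤ (1 + e) ^ 2 * r :=
      mul_le_mul_of_nonneg_left hr (by positivity)
    have a2 : t ≤ (1 + e) ^ 2 * ((1 - e) * t) := by
      have : (1 + e) ^ 2 * ((1 - e) * t) - t = t * (e * (1 - e - e ^ 2)) := by ring
      have h3 : 0 ≤ 1 - e - e ^ 2 := by nlinarith
      have : 0 ≤ t * (e * (1 - e - e ^ 2)) := by positivity
      linarith
    linarith
  rw [div_le_div_iff₀ hsr hst]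
  linarith

/-- **BT6-UpS** -/
theorem upS (h1 : S_Kap) (h2 : S_Pot) (h3 : S_Mean) (h4 : S_Top) (h5 : S_Bot) (h6 : S_WalkE)
    (h7 : S_MeanPin) : S_UpS := by
  intro γ hγ ε hε
  have hγ0 : 0 < γ := by linarith [hγ.1]
  have hγ1 : 1 ≤ γ := by linarith [hγ.1]
  have hγ42 : γ ≤ 42 := by linarith [hγ.2.1]
  obtain ⟨hg0, hg1⟩ := rr_facts hγ
  have hl2 : 0 < Real.log 2 := Real.log_pos (by norm_num)
  set g := rr γ with hg
  set b : ℝ := 1 / (2 * Real.log 2) with hb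
  have hb0 : 0 < b := by positivity
  set D : ℝ := DD γ with hDdef
  have hD : D = γ * (g - 1 / 2) + b := rfl
  have hD0 : 0 < D := by
    rw [hD]
    have : 0 ≤ γ * (g - 1 / 2) := mul_nonneg hγ0.le (by linarith)
    linarith
  have hden : 0 < D + 300 := by positivity
  set e : ℝ := min (1 / 2) (ε * D / (D + 300)) with he'
  have he : 0 < e := lt_min (by norm_num) (by positivity)
  have heh : e ≤ 1 / 2 := min_le_left _ _
  have hee : (D + 300) * e ≤ ε * D := by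
    have : e ≤ ε * D / (D + 300) := min_le_right _ _
    rw [le_div_iff₀ hden] at this
    linarith
  obtain ⟨η, q, hη0, hη1, hq1, hq2, _⟩ := h1 γ hγ 1 one_pos
  have hq0 : 0 < q := by
    have : 0 < la η := by unfold la; positivity
    linarith
  have hlq : 0 < -Real.log q := by
    have := Real.log_neg hq0 hq2
    linarith
  obtain ⟨K, hK, hPot⟩ := h2 η q hη0 hη1 hq1 hq2
  obtain ⟨Cm, hCm, hMean⟩ := h3 γ hγ e he
  obtain ⟨c, hc, hTop⟩ := h4 γ hγ e he
  obtain ⟨Lb, hBot⟩ := h5 (γ + 2) e (by linarith) he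
  obtain ⟨δw, hδw, Lw, hWalk⟩ := h6 γ hγ e he
  set δ : ℝ := e / 2 with hδdef
  have hδ : 0 < δ := by positivity
  have hsδ : 0 < √δ := Real.sqrt_pos.2 hδ
  set k : ℝ := 1 + Cm / √δ with hk
  have hk0 : 0 < k := by positivity
  obtain ⟨ρ, hρ, r₀, hPin⟩ := h7 (e / k) (by positivity)
  set H₀ : ℝ := (K + 1) / e with hH₀
  have hH0 : 0 < H₀ := by positivity
  obtain ⟨t₁, hgrow⟩ := growth hη0 hρ hH0
  -- the constants
  set lam : ℝ := min (e / 88) (δ * -Real.log q / 2) with hlam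
  have hlam0 : 0 < lam := lt_min (by positivity) (by positivity)
  have hlam1 : lam ≤ e / 88 := min_le_left _ _
  have hlam2 : lam ≤ δ * -Real.log q / 2 := min_le_right _ _
  set M₀ : ℝ := max 1 (1 / √δw) with hM₀
  have hM1 : 1 ≤ M₀ := le_max_left _ _
  have hM0 : 0 < M₀ := by linarith
  have hsδw : 0 < √δw := Real.sqrt_pos.2 hδw
  have hM2 : 1 ≤ δw * M₀ ^ 2 := by
    have a1 : 1 / √δw ≤ M₀ := le_max_right _ _
    have a2 : 1 ≤ M₀ * √δw := by rwa [div_le_iff₀ hsδw] at a1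
    calc (1 : ℝ) ≤ (M₀ * √δw) ^ 2 := one_le_pow₀ a2
      _ = δw * M₀ ^ 2 := by rw [mul_pow, Real.sq_sqrt hδw.le]; ring
  set Λ : ℝ := max (Real.log Lb) (max (Real.log Lw) (max (1 / e) (-Real.log e / c))) with hΛ
  have L1 : Real.log Lb ≤ Λ := le_max_left _ _
  have L2 : Real.log Lw ≤ Λ := (le_max_left _ _).trans (le_max_right _ _)
  have L3 : 1 / e ≤ Λ := (le_max_left _ _).trans ((le_max_right _ _).trans (le_max_right _ _))
  have L4 : -Real.log e / c ≤ Λ := (le_max_right _ _).trans ((le_max_right _ _).trans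
    (le_max_right _ _))
  obtain ⟨N₁, hN₁⟩ := exists_nat_ge Λ
  refine ⟨lam, M₀, hlam0, hM0, max (N₁ ^ 2) (max t₁ (max (2 * r₀) 1)), fun t ht L hL hMℓ hℓlam => ?_⟩
  have ht1 : N₁ ^ 2 ≤ t := (le_max_left _ _).trans ht
  have ht2 : t₁ ≤ t := ((le_max_left _ _).trans (le_max_right _ _)).trans ht
  have ht3 : 2 * r₀ ≤ t :=
    ((le_max_left _ _).trans ((le_max_right _ _).trans (le_max_right _ _))).trans ht
  have ht4 : 1 ≤ t :=
    ((le_max_right _ _).trans ((le_max_right _ _).trans (le_max_right _ _))).trans ht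
  have htr : (1 : ℝ) ≤ t := by exact_mod_cast ht4
  have ht0 : (0 : ℝ) < t := by linarith
  have hst0 : 0 < √(t : ℝ) := Real.sqrt_pos.2 ht0
  have hNt : (N₁ : ℝ) ≤ √t := by
    apply Real.le_sqrt_of_sq_le
    exact_mod_cast ht1
  set ℓ : ℝ := Real.log L with hℓ
  have hℓ0 : 0 ≤ ℓ := Real.log_nonneg (by exact_mod_cast hL)
  have hstℓ : √(t : ℝ) ≤ ℓ := by
    calc √(t : ℝ) = 1 * √(t : ℝ) := (one_mul _).symm
      _ ≤ M₀ * √t := mul_le_mul_of_nonneg_right hM1 hst0.le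
      _ ≤ ℓ := hMℓ
  have hY : 1 ≤ ℓ / √t := by
    rw [le_div_iff₀ hst0]
    linarith
  have hℓΛ : Λ ≤ ℓ := by linarith
  have hLb : Lb ≤ L := le_of_log hL (L1.trans hℓΛ)
  have hLw : Lw ≤ L := le_of_log hL (L2.trans hℓΛ)
  have heℓ : 1 ≤ e * ℓ := by
    have := L3.trans hℓΛ
    rw [div_le_iff₀ he] at this
    linarith
  have heℓ2 : e * ℓ ≤ 1 / 2 * ℓ := mul_le_mul_of_nonneg_right heh hℓ0
  have hℓ1 : 2 ≤ ℓ := by linarith
  have hℓp : 0 < ℓ := by linarith
  have hL2 : 2 ≤ L := by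
    rcases Nat.lt_or_ge L 2 with h | h
    · exfalso
      have : L = 1 := by omega
      rw [hℓ, this, Nat.cast_one, Real.log_one] at hℓp
      exact lt_irrefl _ hℓp
    · exact h
  have hγℓ : 1 * ℓ ≤ γ * ℓ := mul_le_mul_of_nonneg_right hγ1 hℓ0
  set s : ℕ := ⌈(γ + e) * ℓ⌉₊ with hs
  have hs1 : (γ + e) * ℓ ≤ s := Nat.le_ceil _
  have hs2 : (s : ℝ) ≤ (γ + e) * ℓ + 1 := (Nat.ceil_lt_add_one (by positivity)).le
  have hsℓ : (s : ℝ) ≤ 44 * ℓ := by
    have h8 : (γ + e) * ℓ ≤ (42 + 1 / 2) * ℓ := mul_le_mul_of_nonneg_right (by linarith) hℓ0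
    linarith
  have hst' : (s : ℝ) ≤ e / 2 * t := by
    have h8 : 44 * ℓ ≤ 44 * (lam * t) := by linarith
    have h9 : lam * t ≤ e / 88 * t := mul_le_mul_of_nonneg_right hlam1 ht0.le
    linarith
  have hsge : (1 : ℝ) ≤ s := by linarith
  set t₂ : ℕ := s + ⌊δ * t⌋₊ with ht₂
  have hfl1 : (⌊δ * (t : ℝ)⌋₊ : ℝ) ≤ δ * t := Nat.floor_le (by positivity)
  have hfl2 : δ * (t : ℝ) < ⌊δ * (t : ℝ)⌋₊ + 1 := Nat.lt_floor_add_one _
  have ht₂r : (t₂ : ℝ) = s + (⌊δ * (t : ℝ)⌋₊ : ℝ) := by rw [ht₂]; push_cast; ring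
  have hst : s ≤ t₂ := by rw [ht₂]; exact Nat.le_add_right _ _
  have ht2c : δ * t ≤ t₂ := by rw [ht₂r]; linarith
  have ht2d : (t₂ : ℝ) ≤ e * t := by
    rw [ht₂r]
    have : δ * (t : ℝ) = e / 2 * t := rfl
    linarith
  have het : e * t ≤ 1 / 2 * t := mul_le_mul_of_nonneg_right heh ht0.le
  have ht2t : t₂ ≤ t := by
    have : (t₂ : ℝ) ≤ t := by linarith
    exact_mod_cast this
  obtain ⟨r, hr⟩ := Nat.exists_eq_add_of_le ht2t
  have hrr : (r : ℝ) = t - t₂ := by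
    rw [hr]
    push_cast
    ring
  have hr1 : (1 - e) * t ≤ r := by rw [hrr]; linarith
  have hr2 : (t : ℝ) / 2 ≤ r := by
    have : (1 / 2 : ℝ) * t ≤ (1 - e) * t := mul_le_mul_of_nonneg_right (by linarith) ht0.le
    linarith
  have hr0' : (0 : ℝ) < r := by linarith
  have hsr0 : 0 < √(r : ℝ) := Real.sqrt_pos.2 hr0'
  have hrr0 : r₀ ≤ r := by
    have h8 : (2 * r₀ : ℝ) ≤ t := by exact_mod_cast ht3
    have : (r₀ : ℝ) ≤ r := by linarith
    exact_mod_cast this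
  have ht₂0 : (0 : ℝ) < t₂ := by
    have : 0 < δ * t := by positivity
    linarith
  set H : ℝ := H₀ * (1 + t₂) with hH
  have hHpos : 0 < H := by positivity
  have hsq : ℓ / √t₂ ≤ 1 / √δ * (ℓ / √t) := by
    have h12 : √δ * √t ≤ √t₂ := by
      rw [← Real.sqrt_mul hδ.le]
      exact Real.sqrt_le_sqrt ht2c
    have h13 : ℓ / √t₂ ≤ ℓ / (√δ * √t) :=
      div_le_div_of_nonneg_left hℓ0 (by positivity) h12
    calc ℓ / √t₂ ≤ ℓ / (√δ * √t) := h13
      _ = 1 / √δ * (ℓ / √t) := by field_simp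
  have ht2w : (t₂ : ℝ) ≤ δw * ℓ ^ 2 := by
    have a1 : (t₂ : ℝ) ≤ t := by exact_mod_cast ht2t
    have a2 : M₀ ^ 2 * t ≤ ℓ ^ 2 := by
      calc M₀ ^ 2 * t = (M₀ * √t) ^ 2 := by rw [mul_pow, Real.sq_sqrt ht0.le]
        _ ≤ ℓ ^ 2 := pow_le_pow_left₀ (by positivity) hMℓ 2
    calc (t₂ : ℝ) ≤ 1 * t := by linarith
      _ ≤ (δw * M₀ ^ 2) * t := mul_le_mul_of_nonneg_right hM2 ht0.le
      _ = δw * (M₀ ^ 2 * t) := by ring
      _ ≤ δw * ℓ ^ 2 := mul_le_mul_of_nonneg_left a2 hδw.le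
  -- the events
  set top : ℝ := (g + e) * s with htop
  set bot : ℝ := s / 2 - (b + e) * ℓ with hbot
  set P1 : ℤ → Prop := fun x => ∃ z ∈ VV L s x, top ≤ z.1 with hP1
  set P2 : ℤ → Prop := fun x => ∃ z ∈ VV L s x, (z.1 : ℝ) < bot with hP2
  have p1 : PR t₂ P1 ≤ e := by
    rw [PR_per hst (fun x j => lev_per L s (fun a => top ≤ (a : ℝ)) x j)]
    have h8 : γ * ℓ ≤ s := by linarith
    refine (hTop L s hL h8).trans ?_
    rw [← Real.le_log_iff_exp_le he]
    have h9 := L4.trans hℓΛ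
    rw [div_le_iff₀ hc] at h9
    have h10 : ℓ ≤ s := by linarith
    have h11 : c * ℓ ≤ c * s := mul_le_mul_of_nonneg_left h10 hc.le
    linarith
  have p2 : PR t₂ P2 ≤ e := by
    rw [PR_per hst (fun x j => lev_per L s (fun a => (a : ℝ) < bot) x j)]
    have h8 : (s : ℝ) ≤ (γ + 2) * ℓ := by linarith
    exact hBot L hLb s h8
  have p12 : EE t₂ (fun x => Set.indicator {x : ℤ | P1 x ∨ P2 x} 1 x) ≤ 2 * e := by
    have := PR_or t₂ P1 P2
    unfold PR at this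
    unfold PR at p1 p2
    linarith
  obtain ⟨G, hG0, hG1, hG2⟩ := hWalk L hLw s t₂ hs1 hst ht2w
  -- the mean number of forms at the time `t₂`
  have p4 : EE t₂ (fun x => ((VV L t₂ x).card : ℝ)) ≤ k * (ℓ / √t) := by
    have h8 : (γ + e) * ℓ ≤ t₂ := by
      have : (s : ℝ) ≤ t₂ := by exact_mod_cast hst
      linarith
    have h9 := hMean L t₂ hL2 h8
    have h10 : EE t₂ (fun x => ((VV L t₂ x).card : ℝ)) =
        EE t₂ (fun x => ((VV L t₂ x).card : ℝ) - 1) + 1 := by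
      have := EE_add t₂ (fun x => ((VV L t₂ x).card : ℝ) - 1) (fun _ => 1)
      rw [EE_const] at this
      rw [← this]
      congr 1
      funext x
      ring
    rw [h10]
    have h11 : Cm * (ℓ / √t₂) ≤ Cm / √δ * (ℓ / √t) := by
      calc Cm * (ℓ / √t₂) ≤ Cm * (1 / √δ * (ℓ / √t)) := mul_le_mul_of_nonneg_left hsq hCm.le
        _ = Cm / √δ * (ℓ / √t) := by ring
    have h12 : k * (ℓ / √t) = ℓ / √t + Cm / √δ * (ℓ / √t) := by rw [hk]; ring
    rw [h12]
    linarith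
  have p5 : EE t₂ (fun x => QQ η (VV L t₂ x) (x / 2 ^ t₂)) ≤ (K + 1) * (1 + t₂) := by
    have h8 := hPot 0 (V0 L) (fun z hz => by
      unfold V0 at hz
      obtain ⟨j, _, rfl⟩ := mem_image.1 hz
      exact le_rfl) 0 t₂
    have e1 : (fun x : ℤ => QQ η (VV L t₂ x) (x / 2 ^ t₂)) =
        fun x : ℤ => QQ η ((V0 L).image (nx t₂ x)) ((0 + x) / 2 ^ t₂) := by
      funext x
      rw [VV_eq, zero_add]
    rw [e1]
    refine h8.trans ?_
    have h10 : q ^ t₂ * QQ η (V0 L) 0 ≤ 1 := by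
      have h11 := QQ_V0 hη1.le L
      have hLp : (0 : ℝ) < L := by exact_mod_cast (by omega : 0 < L)
      have h12 : q ^ t₂ * ((L : ℝ) * L) ≤ 1 := by
        rw [← Real.log_nonpos_iff (by positivity), Real.log_mul (by positivity) (by positivity),
          Real.log_mul hLp.ne' hLp.ne', Real.log_pow]
        have h13 : δ * t * -Real.log q ≤ t₂ * -Real.log q :=
          mul_le_mul_of_nonneg_right ht2c hlq.le
        have h14 : Real.log (L : ℝ) = ℓ := rfl
        have h15 : 2 * ℓ ≤ δ * t * -Real.log q := by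
          have h16 : lam * t ≤ δ * -Real.log q / 2 * t := mul_le_mul_of_nonneg_right hlam2 ht0.le
          have h17 : δ * -Real.log q / 2 * t = δ * t * -Real.log q / 2 := by ring
          linarith
        rw [h14]
        linarith
      calc q ^ t₂ * QQ η (V0 L) 0 ≤ q ^ t₂ * ((L : ℝ) * L) :=
            mul_le_mul_of_nonneg_left h11 (by positivity)
        _ ≤ 1 := h12
    push_cast
    linarith
  -- the bound for one residue
  have htb : 0 ≤ top - bot := by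
    have : 0 ≤ (g + e - 1 / 2) * s := mul_nonneg (by linarith) (Nat.cast_nonneg s)
    have h8 : 0 ≤ (b + e) * ℓ := by positivity
    rw [htop, hbot]
    linarith
  set R : ℤ → ℝ := fun x => (top - bot) + s * Set.indicator {x : ℤ | P1 x ∨ P2 x} 1 x + 2 * G x with hR
  have hR0 : ∀ x, 0 ≤ R x := by
    intro x
    have a1 := ind_nonneg (fun x => P1 x ∨ P2 x) x
    have a2 := hG0 x
    have a3 : 0 ≤ (s : ℝ) * Set.indicator {x : ℤ | P1 x ∨ P2 x} 1 x := mul_nonneg (Nat.cast_nonneg s) a1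
    rw [hR]
    show 0 ≤ (top - bot) + s * Set.indicator {x : ℤ | P1 x ∨ P2 x} 1 x + 2 * G x
    linarith
  have hone : ∀ x : ℤ, EE r (fun N => ((VV L t (2 ^ t₂ * N + x)).card : ℝ)) ≤
      1 + 2 / √Real.pi * (R x / √r) + e / k * ((VV L t₂ x).card : ℝ) +
        1 / H * QQ η (VV L t₂ x) (x / 2 ^ t₂) := by
    intro x
    set V := VV L t₂ x with hV
    set p : ℕ × ℤ → Prop := fun z => (1 + |ww (x / 2 ^ t₂) z|) ^ η ≤ H with hp
    have h8 : (fun N : ℤ => ((VV L t (2 ^ t₂ * N + x)).card : ℝ)) =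
        fun N => ((V.image (nx r N)).card : ℝ) := by
      funext N
      rw [hr, VV_add]
    rw [h8]
    have h9 : EE r (fun N => ((V.image (nx r N)).card : ℝ)) ≤
        EE r (fun N => (((V.filter p).image (nx r N)).card : ℝ) + ((V.filter fun z => ¬ p z).card : ℝ)) :=
      EE_mono r fun N => card_split V p (nx r N)
    rw [EE_add, EE_const] at h9
    have h10 := hPin r hrr0 (V.filter p) (by
      intro z hz z' hz' hle
      refine (offsets' (V := V.filter p) (θ := x / 2 ^ t₂) (H := H) hη0 (fun z hz => (mem_filter.1 hz).2)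
        z hz z' hz' hle).trans ?_
      refine mul_le_mul_of_nonneg_left ?_ (by positivity)
      have h10 := hgrow t ht2
      have h11 : H ^ (1 / η) ≤ (H₀ * (1 + t)) ^ (1 / η) := by
        apply Real.rpow_le_rpow hHpos.le _ (by positivity)
        rw [hH]
        have : (t₂ : ℝ) ≤ t := by exact_mod_cast ht2t
        exact mul_le_mul_of_nonneg_left (by linarith) hH0.le
      have h12 : Real.exp (ρ * (t / 2)) ≤ Real.exp (ρ * r) :=
        Real.exp_le_exp.2 (mul_le_mul_of_nonneg_left hr2 hρ.le)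
      linarith) (R x) (hR0 x) (fun z hz z' hz' =>
        levels' htb (fun j hj => hG1 x j hj) z (mem_filter.1 hz).1 z' (mem_filter.1 hz').1)
    have h11 : e / k * ((V.filter p).card : ℝ) ≤ e / k * (V.card : ℝ) := by
      refine mul_le_mul_of_nonneg_left ?_ (by positivity)
      exact_mod_cast card_le_card (filter_subset _ _)
    have h12 : ((V.filter fun z => ¬ p z).card : ℝ) ≤ 1 / H * QQ η V (x / 2 ^ t₂) := by
      have := card_far V (x / 2 ^ t₂) η hHpos.le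
      rw [one_div, ← div_eq_inv_mul, le_div_iff₀ hHpos, mul_comm]
      exact this
    linarith
  have hmain : EE t (fun x => ((VV L t x).card : ℝ)) ≤
      1 + 2 / √Real.pi * (EE t₂ R / √r) + e / k * EE t₂ (fun x => ((VV L t₂ x).card : ℝ)) +
        1 / H * EE t₂ (fun x => QQ η (VV L t₂ x) (x / 2 ^ t₂)) := by
    conv_lhs => rw [hr, EE_split]
    have h8 : EE t₂ (fun x => EE r (fun x' => ((VV L (t₂ + r) (2 ^ t₂ * x' + x)).card : ℝ))) ≤
        EE t₂ (fun x => 1 + 2 / √Real.pi * (R x / √r) + e / k * ((VV L t₂ x).card : ℝ) +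
        1 / H * QQ η (VV L t₂ x) (x / 2 ^ t₂)) := by
      refine EE_mono t₂ fun x => ?_
      rw [← hr]
      exact hone x
    refine h8.trans (le_of_eq ?_)
    have h9 : EE t₂ (fun n : ℤ => R n / √(r : ℝ)) = EE t₂ R / √(r : ℝ) := by
      have h10 : (fun n : ℤ => R n / √(r : ℝ)) = fun n => (1 / √(r : ℝ)) * R n := by
        funext n
        ring
      rw [h10, EE_mul]
      ring
    rw [EE_add, EE_add, EE_add, EE_mul, EE_mul, EE_mul, EE_const, h9]
  have hER : EE t₂ R ≤ (top - bot) + s * (2 * e) + 2 * (e * ℓ) := by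
    have h8 : EE t₂ R = (top - bot) + s * EE t₂ (fun x => Set.indicator {x : ℤ | P1 x ∨ P2 x} 1 x) +
        2 * EE t₂ G := by
      rw [hR, EE_add, EE_add, EE_mul, EE_mul, EE_const]
    rw [h8]
    have h9 : (s : ℝ) * EE t₂ (fun x => Set.indicator {x : ℤ | P1 x ∨ P2 x} 1 x) ≤ s * (2 * e) :=
      mul_le_mul_of_nonneg_left p12 (Nat.cast_nonneg s)
    linarith
  have hER2 : EE t₂ R ≤ (D + 138 * e) * ℓ := by
    have h8 := seg1 (g := g) (γ := γ) (e := e) (ℓ := ℓ) (s := s) (b := b) (D := D) hg0 hg1 hγ0 hγ42 he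
      heh heℓ hs2 hD
    have h9 : (s : ℝ) * (2 * e) ≤ 44 * ℓ * (2 * e) := mul_le_mul_of_nonneg_right hsℓ (by positivity)
    have h10 : (top - bot) + s * (2 * e) + 2 * (e * ℓ) =
        ((g + e) * s - s / 2 + (b + e) * ℓ + 2 * (e * ℓ)) + s * (2 * e) := by
      rw [htop, hbot]
      ring
    have h11 : (D + 138 * e) * ℓ = (D + 50 * e) * ℓ + 44 * ℓ * (2 * e) := by ring
    linarith
  have hERr : EE t₂ R / √r ≤ (D + (D + 207) * e) * (ℓ / √t) := by
    have h8 : EE t₂ R / √r ≤ (D + 138 * e) * ℓ / √r :=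
      div_le_div_of_nonneg_right hER2 hsr0.le
    have h9 : (D + 138 * e) * ℓ / √r = (D + 138 * e) * ℓ * (1 / √r) := by ring
    have h10 : (D + 138 * e) * ℓ * (1 / √r) ≤ (D + 138 * e) * ℓ * ((1 + e) / √t) :=
      mul_le_mul_of_nonneg_left (sqrt_ratio he heh ht0 hr1) (by positivity)
    have h11 : (D + 138 * e) * ℓ * ((1 + e) / √t) = (D + 138 * e) * (1 + e) * (ℓ / √t) := by ring
    have h12 : (D + 138 * e) * (1 + e) ≤ D + (D + 207) * e := by
      have : 138 * e * e ≤ 138 * e * (1 / 2) := mul_le_mul_of_nonneg_left heh (by positivity)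
      nlinarith
    have h13 : (D + 138 * e) * (1 + e) * (ℓ / √t) ≤ (D + (D + 207) * e) * (ℓ / √t) :=
      mul_le_mul_of_nonneg_right h12 (by positivity)
    linarith
  have hpi0 : 0 ≤ 2 / √Real.pi := by positivity
  have hpi1 : 1 ≤ 2 / √Real.pi := by
    rw [le_div_iff₀ (Real.sqrt_pos.2 Real.pi_pos)]
    have h8 : √Real.pi ≤ 2 := by
      apply Real.sqrt_le_iff.2
      exact ⟨by norm_num, by linarith [Real.pi_lt_four]⟩
    linarith
  set Y : ℝ := ℓ / √t with hYdef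
  have a1 : 2 / √Real.pi * (EE t₂ R / √r) ≤ 2 / √Real.pi * ((D + (D + 207) * e) * Y) :=
    mul_le_mul_of_nonneg_left hERr hpi0
  have a2 : e / k * EE t₂ (fun x => ((VV L t₂ x).card : ℝ)) ≤ e * Y := by
    calc e / k * EE t₂ (fun x => ((VV L t₂ x).card : ℝ)) ≤ e / k * (k * Y) :=
          mul_le_mul_of_nonneg_left p4 (by positivity)
      _ = e * Y := by field_simp
  have a3 : 1 / H * EE t₂ (fun x => QQ η (VV L t₂ x) (x / 2 ^ t₂)) ≤ e := by
    calc 1 / H * EE t₂ (fun x => QQ η (VV L t₂ x) (x / 2 ^ t₂)) ≤ 1 / H * ((K + 1) * (1 + t₂)) :=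
          mul_le_mul_of_nonneg_left p5 (by positivity)
      _ = e := by
          rw [hH, hH₀]
          field_simp
  have hY0 : 0 < Y := by linarith
  have a4 : e * 1 ≤ e * Y := mul_le_mul_of_nonneg_left hY he.le
  have a5 : 1 * (2 * (e * Y)) ≤ 2 / √Real.pi * (2 * (e * Y)) :=
    mul_le_mul_of_nonneg_right hpi1 (by positivity)
  have a6 : 2 / √Real.pi * ((D + 300) * e * Y) ≤ 2 / √Real.pi * (ε * D * Y) :=
    mul_le_mul_of_nonneg_left (mul_le_mul_of_nonneg_right hee hY0.le) hpi0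
  have a7 : 0 ≤ 2 / √Real.pi * (91 * (e * Y)) := by positivity
  have e1 : (1 + ε) * (1 + 2 / √Real.pi * (DD γ * Real.log L / √t)) =
      1 + ε + 2 / √Real.pi * (D * Y) + 2 / √Real.pi * (ε * D * Y) := by
    rw [hYdef, ← hDdef, ← hℓ]
    ring
  have e2 : 2 / √Real.pi * ((D + (D + 207) * e) * Y) + 2 / √Real.pi * (2 * (e * Y)) +
      2 / √Real.pi * (91 * (e * Y)) = 2 / √Real.pi * (D * Y) + 2 / √Real.pi * ((D + 300) * e * Y) := by
    ring
  rw [e1]
  linarith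

end Pool.Agent.Q96.BT
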